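import Pool.Agent.TH936.AC.Stmts2

/-!
# Project AW (owner helper936): horizontal anticyclotomic non-vanishing, all odd weights

Same as project AC with a Hecke character `ψ` of infinity type `(2 m - 1, 0)`, `m ≥ 1`; `g(I) =
ψ(I) / N(I) ^ (m - 1)` has the size of a character of type `(1, 0)`, and `exp(-x)` is replaced by a
weight function `V` (in the end `V = Vk m`).  Every `def B_... : Prop` is the statement of one part.
-/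

set_option autoImplicit false

open Complex

namespace Pool.Agent.TH936.AW

open Pool.Agent.W192.HK Pool.Agent.TH936.AC
open Pool.Agent.W192.CY (VW Vk)

/-- the properties of `g(I) = ψ(I) / N(I) ^ (m - 1)` that are used -/
structure GC {R : Subring ℂ} (f : Ideal R) (g : Ideal R → ℂ) : Prop where
  ne : f ≠ ⊥
  net : f ≠ ⊤
  mul : ∀ I J : Ideal R, g (I * J) = g I * g J
  zero : ∀ I : Ideal R, g I = 0 ↔ (I = ⊥ ∨ ¬ IsCoprime I f)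
  nrm : ∀ I : Ideal R, I ≠ ⊥ → IsCoprime I f → ‖g I‖ ^ 2 = nm I
  per : ∀ a b : ℤ, a ≠ 0 → b ≠ 0 → (a : R) - (b : R) ∈ f →
    g (sp (a : R)) * (b : ℂ) = g (sp (b : R)) * (a : ℂ)

/-- weight functions: `VW` is `|V x| ≤ C exp(-x/2)`, `|1 - V x| ≤ C x` for `x ≥ 0` -/
structure WV (V : ℝ → ℝ) (C : ℝ) : Prop where
  vw : VW V C
  anti : AntitoneOn V (Set.Ici 0)

open Classical in
/-- the coefficient of the ideal `(m) c` in the product of the mollifier and the smoothed sum -/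
noncomputable def lamV {R : Subring ℂ} (V : ℝ → ℝ) (f : Ideal R) (y Z X : ℝ) (m : ℕ)
    (c : Ideal R) : ℝ :=
  ∑ b ∈ BB f y Z, if mB f b ∣ sp (m : R) * c then
    (sB b : ℝ) * V ((m : ℝ) ^ 2 * nm c / (nB b * X)) else 0

open Classical in
/-- the coefficient of the primitive ideal `c` in the product of the two -/
noncomputable def PhV {R : Subring ℂ} (V : ℝ → ℝ) (f : Ideal R) (y Z X : ℝ) (q : ℕ)
    (g : Ideal R → ℂ) (c : Ideal R) : ℂ :=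
  ∑' m : ℕ, if Nat.Coprime m q then g (sp (m : R)) / (m : ℂ) ^ 2 * (lamV V f y Z X m c : ℂ) else 0

/-- EPS : the sum over the rational integers (compare `A_EPS`) -/
def B_EPS : Prop := ∀ (R : Subring ℂ) (ω : ℂ), QP R ω → ∀ (V : ℝ → ℝ) (CV : ℝ), WV V CV →
  ∀ (f : Ideal R) (g : Ideal R → ℂ), GC f g → ∃ (L0 : ℂ) (C : ℝ), L0 ≠ 0 ∧ 0 < C ∧
  ∀ q : ℕ, q.Prime → IsCoprime f (sp (q : R)) → ∀ w : ℝ, 0 < w →
  Summable (fun m : ℕ => if Nat.Coprime m q then g (sp (m : R)) / (m : ℂ) ^ 2 *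
      (V ((m : ℝ) ^ 2 * w) : ℂ) else 0) ∧
  ‖∑' m : ℕ, (if Nat.Coprime m q then g (sp (m : R)) / (m : ℂ) ^ 2 *
      (V ((m : ℝ) ^ 2 * w) : ℂ) else 0) - L0‖ ≤ C * (Real.sqrt w + 1 / q)

/-- PHI : the coefficients of the small primitive ideals (compare `A_PHI`) -/
def B_PHI : Prop := ∀ (R : Subring ℂ) (ω : ℂ), QP R ω → ∀ (V : ℝ → ℝ) (CV : ℝ), WV V CV →
  ∀ (f : Ideal R) (g : Ideal R → ℂ), GC f g → CS g → ∀ c0 C0 : ℝ, 0 < c0 → 0 < C0 →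
  ∃ (L0 : ℂ) (q0 : ℝ), L0 ≠ 0 ∧
  ∀ q : ℕ, q.Prime → IsCoprime f (sp (q : R)) → q0 ≤ q → ∀ X : ℝ, c0 * q ≤ X → X ≤ C0 * q →
  ∀ c : Ideal R, Pri c → nm c ≤ (q : ℝ) ^ (1 / 100000 : ℝ) →
    ‖PhV V f ((Real.log q) ^ 200) ((q : ℝ) ^ (1 / 10 : ℝ)) X q g c -
      L0 * (dl f ((Real.log q) ^ 200) c : ℂ)‖ ≤ (q : ℝ) ^ (-1 / 50000 : ℝ)

/-- PHI2 : the coefficients of all primitive ideals (compare `A_PHI2`; note the `4`) -/
def B_PHI2 : Prop := ∀ (R : Subring ℂ) (ω : ℂ), QP R ω → ∀ (V : ℝ → ℝ) (CV : ℝ), VW V CV →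
  ∀ (f : Ideal R) (g : Ideal R → ℂ), GC f g → ∀ η : ℝ, 0 < η → ∃ C : ℝ, 0 < C ∧
  ∀ (y Z X : ℝ) (q : ℕ), q.Prime → 1 ≤ Z → 1 ≤ X → ∀ c : Ideal R, Pri c →
    ‖PhV V f y Z X q g c‖ ≤ C * (Z * X) ^ (2 * η) * (nm c) ^ η * Real.exp (-(nm c / (4 * (Z * X))))

open Classical in
/-- REG : the product of the mollifier and the smoothed sum as a sum over the primitive ideals
(compare `A_REG`) -/
def B_REG : Prop := ∀ (R : Subring ℂ) (ω : ℂ), QP R ω → ∀ (V : ℝ → ℝ) (CV : ℝ), VW V CV →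
  ∀ (f : Ideal R) (g : Ideal R → ℂ), GC f g → Ram f → ∀ (q : ℕ) (χ : Ideal R → ℂ), RG q χ →
  ∀ (y Z X : ℝ), 1 ≤ Z → 1 ≤ X →
    Summable (fun c : Ideal R => if Pri c then ‖g c / (nm c : ℂ) * PhV V f y Z X q g c‖ else 0) ∧
    Ml f y Z g χ * smo V g X χ =
      ∑' c : Ideal R, if Pri c then χ c * (g c / (nm c : ℂ) * PhV V f y Z X q g c) else 0

/-- the functional equation, weight `2 m` -/
def FEQK {R : Subring ℂ} (m : ℕ) (ω : ℂ) (Q : Ideal R) (W : ℂ) (F : ℂ → ℂ) : Prop :=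
  ∀ s : ℂ, 0 < s.re → s.re < 2 * m →
    ((ω.im * Real.sqrt (nm Q) / Real.pi : ℝ) : ℂ) ^ s * Complex.Gamma s * F s =
      W * (((ω.im * Real.sqrt (nm Q) / Real.pi : ℝ) : ℂ) ^ (2 * (m : ℂ) - s) *
        Complex.Gamma (2 * (m : ℂ) - s) * F (2 * (m : ℂ) - s))

/-- FE : functional equation and the formula for the central value (compare `A_FE`) -/
def B_FE : Prop := ∀ (R : Subring ℂ) (ω : ℂ), QP R ω → ∀ m : ℕ, 1 ≤ m →
  ∀ (Q : Ideal R) (θ : Ideal R → ℂ),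
  HC (2 * m - 1) Q θ → CS θ → ∀ (s : Finset (Ideal R)) (hh : Ideal R) (μ : R) (T : Finset R),
  Sys Q s hh μ T → ∀ W : ℂ, W = Wc ω m Q hh μ T θ →
    (W = 1 ∨ W = -1) ∧ ∃ F : ℂ → ℂ, Differentiable ℂ F ∧
      (∀ z : ℂ, (m : ℝ) + 1 / 2 < z.re →
        HasSum (fun I : Ideal R => θ I * (nm I : ℂ) ^ (-z)) (F z)) ∧
      FEQK m ω Q W F ∧
      F m = (1 + W) * ∑' I : Ideal R, θ I / (nm I : ℂ) ^ m *
        (Vk m (nm I / (ω.im * Real.sqrt (nm Q) / Real.pi)) : ℂ)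

/-- WC : the explicit root number (compare `A_WC2`) -/
def B_WC : Prop := ∀ (R : Subring ℂ) (ω : ℂ), QP R ω → ∀ m : ℕ, 1 ≤ m →
  ∀ (f : Ideal R) (ψ : Ideal R → ℂ),
  HC (2 * m - 1) f ψ → CS ψ → ∃ (φ : R) (T1 : Finset R), Sys f {⊤} ⊤ φ T1 ∧
  ∀ q : ℕ, q.Prime → IsCoprime f (sp (q : R)) → ∀ χ : Ideal R → ℂ,
  HC 0 (sp (q : R)) χ → RG q χ → ∀ d : ℕ, Od χ d →
  ∃ T : Finset R, Sys (f * sp (q : R)) {⊤} ⊤ (φ * (q : R)) T ∧
    ∀ a : ℕ, Nat.Coprime a d →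
      Wc ω m (f * sp (q : R)) ⊤ (φ * (q : R)) T (fun I => ψ I * pw χ a I) =
        Wc ω m f ⊤ φ T1 ψ * (ψ (sp (q : R)) / (q : ℂ) ^ (2 * m - 1)) * χ f

/-- RAM : the ramified primes divide the conductor of `ψ` (compare `A_RAM`) -/
def B_RAM : Prop := ∀ (R : Subring ℂ) (ω : ℂ), QP R ω → ∀ m : ℕ, 1 ≤ m →
  ∀ (f : Ideal R) (ψ : Ideal R → ℂ), HC (2 * m - 1) f ψ → CS ψ → Ram f

/-- GC : `ψ(I) / N(I) ^ (m - 1)` has the properties `GC` -/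
def B_GC : Prop := ∀ (R : Subring ℂ) (ω : ℂ), QP R ω → ∀ m : ℕ, 1 ≤ m →
  ∀ (f : Ideal R) (ψ : Ideal R → ℂ), HC (2 * m - 1) f ψ →
    GC f (fun I => ψ I / (nm I : ℂ) ^ (m - 1))

/-- VK : the weight functions are decreasing -/
def B_VK : Prop := ∀ m : ℕ, 1 ≤ m → ∃ C : ℝ, WV (Vk m) C

end Pool.Agent.TH936.AW
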