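import Mathlib
import Pool.Agent.TH936.AW.Stmts
import Pool.Agent.TH936.AC.Eps

set_option autoImplicit false

/-!
# Project AW, part EPS: the sum over the rational integers, with a weight function
(adapted from `Pool/Agent/TH936/AC/Eps.lean` of helper928)
-/

namespace Pool.Agent.TH936.AW.Eps

open Filter Topology Finset
open Pool.Agent.TH936.AC.Eps

/-! ## the weight function -/

section weight

variable {V : ℝ → ℝ} {C : ℝ}

lemma V_nonneg (h : WV V C) {x : ℝ} (hx : 0 ≤ x) : 0 ≤ V x := by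
  have h1 : Tendsto (fun y : ℝ => -(C * Real.exp (-(y / 2)))) atTop (𝓝 (-(C * 0))) := by
    refine Tendsto.neg (Tendsto.const_mul _ ?_)
    refine Real.tendsto_exp_atBot.comp ?_
    exact tendsto_neg_atTop_atBot.comp (tendsto_id.atTop_div_const (by norm_num))
  rw [mul_zero, neg_zero] at h1
  refine le_of_tendsto h1 ?_
  filter_upwards [eventually_ge_atTop x] with y hy
  have h2 := (abs_le.1 (h.vw.dec y (hx.trans hy))).1
  exact h2.trans (h.anti hx (hx.trans hy) hy)

lemma V_zero (h : WV V C) : V 0 = 1 := by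
  have h1 := h.vw.one 0 le_rfl
  rw [mul_zero] at h1
  have h2 := abs_eq_zero.1 (le_antisymm h1 (abs_nonneg _))
  linarith

lemma V_le (h : WV V C) {x : ℝ} (hx : 0 ≤ x) : V x ≤ 1 := by
  rw [← V_zero h]
  exact h.anti (Set.self_mem_Ici (a := (0 : ℝ))) hx hx

/-- the constant -/
noncomputable def C1 (C : ℝ) : ℝ := max C 1

lemma C1_one (C : ℝ) : 1 ≤ C1 C := le_max_right _ _

lemma u_le (h : WV V C) {x : ℝ} (hx : 0 ≤ x) : 1 - V x ≤ C1 C * x := by
  have h1 := (le_abs_self _).trans (h.vw.one x hx)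
  exact h1.trans (mul_le_mul_of_nonneg_right (le_max_left _ _) hx)

/-- `u / x ^ 2` -/
lemma u_frac (h : WV V C) {w x : ℝ} (hw : 0 < w) (hx : 0 < x) :
    (1 - V (x ^ 2 * w)) * (1 / x - 1 / (x + 1)) ≤ C1 C * (2 * w / (1 + w * x ^ 2)) := by
  have hC := C1_one C
  have hu0 : 0 ≤ x ^ 2 * w := by positivity
  have h0 : 0 ≤ 1 - V (x ^ 2 * w) := by linarith [V_le h hu0]
  have h1 := u_le h hu0
  have h2 : 1 - V (x ^ 2 * w) ≤ C1 C := by linarith [V_nonneg h hu0]
  have h3 : 1 / x - 1 / (x + 1) ≤ 1 / x ^ 2 := by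
    have : 1 / x - 1 / (x + 1) = 1 / (x * (x + 1)) := by
      field_simp
      ring
    rw [this]
    refine one_div_le_one_div_of_le (by positivity) ?_
    nlinarith
  have h4 : (1 - V (x ^ 2 * w)) * (1 / x - 1 / (x + 1)) ≤ (1 - V (x ^ 2 * w)) * (1 / x ^ 2) :=
    mul_le_mul_of_nonneg_left h3 h0
  refine h4.trans ?_
  rw [mul_one_div, ← mul_div_assoc, div_le_div_iff₀ (by positivity) (by positivity)]
  rcases le_total (x ^ 2 * w) 1 with h5 | h5
  · have h6 : 1 + w * x ^ 2 ≤ 2 := by linarith [mul_comm w (x ^ 2)]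
    calc (1 - V (x ^ 2 * w)) * (1 + w * x ^ 2) ≤ (C1 C * (x ^ 2 * w)) * 2 :=
          mul_le_mul h1 h6 (by positivity) (by positivity)
      _ = C1 C * (2 * w) * x ^ 2 := by ring
  · have h6 : 1 + w * x ^ 2 ≤ 2 * (x ^ 2 * w) := by linarith [mul_comm w (x ^ 2)]
    calc (1 - V (x ^ 2 * w)) * (1 + w * x ^ 2) ≤ C1 C * (2 * (x ^ 2 * w)) :=
          mul_le_mul h2 h6 (by positivity) (by positivity)
      _ = C1 C * (2 * w) * x ^ 2 := by ring

/-- `u / x` -/
lemma u_div (h : WV V C) {w x : ℝ} (hw : 0 < w) (hx : 0 < x) :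
    (1 - V (x ^ 2 * w)) / x ≤ C1 C * Real.sqrt w := by
  have hC := C1_one C
  set r : ℝ := Real.sqrt w with hr
  have hr0 : 0 < r := Real.sqrt_pos.2 hw
  have hw2 : w = r ^ 2 := (Real.sq_sqrt hw.le).symm
  have hu0 : 0 ≤ x ^ 2 * w := by positivity
  have h1 := u_le h hu0
  have h2 : 1 - V (x ^ 2 * w) ≤ C1 C := by linarith [V_nonneg h hu0]
  rw [div_le_iff₀ hx]
  rcases le_total (r * x) 1 with h5 | h5
  · refine h1.trans ?_
    rw [mul_assoc]
    refine mul_le_mul_of_nonneg_left ?_ (by linarith)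
    rw [hw2]
    have h6 : 0 ≤ r * x := by positivity
    calc x ^ 2 * r ^ 2 = (r * x) * (r * x) := by ring
      _ ≤ (r * x) * 1 := mul_le_mul_of_nonneg_left h5 h6
      _ = r * x := mul_one _
  · calc 1 - V (x ^ 2 * w) ≤ C1 C * 1 := by rw [mul_one]; exact h2
      _ ≤ C1 C * (r * x) := mul_le_mul_of_nonneg_left h5 (by linarith)
      _ = C1 C * r * x := by ring

/-- the sum of the differences of `(1 - V) / m` -/
lemma G_sum (h : WV V C) {w : ℝ} (hw : 0 < w) (N : ℕ) :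
    ∑ i ∈ range N, |(1 - V (((i : ℝ) + 1) ^ 2 * w)) / ((i : ℝ) + 1) -
      (1 - V (((i : ℝ) + 1 + 1) ^ 2 * w)) / ((i : ℝ) + 1 + 1)| ≤ 9 * C1 C * Real.sqrt w := by
  have hC := C1_one C
  have hr0 : 0 < Real.sqrt w := Real.sqrt_pos.2 hw
  set K : ℕ → ℝ := fun i => 1 / (1 + Real.sqrt w * i) with hK
  set G : ℕ → ℝ := fun i => (1 - V (((i : ℝ) + 1) ^ 2 * w)) / ((i : ℝ) + 1) with hG
  have h1 : ∀ i : ℕ, |(1 - V (((i : ℝ) + 1) ^ 2 * w)) / ((i : ℝ) + 1) -
      (1 - V (((i : ℝ) + 1 + 1) ^ 2 * w)) / ((i : ℝ) + 1 + 1)| ≤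
      8 * C1 C * Real.sqrt w * (K i - K (i + 1)) + (G (i + 1) - G i) := by
    intro i
    have hx : (0 : ℝ) < (i : ℝ) + 1 := by positivity
    have a1 := u_frac h hw hx
    have a2 := frac_le hw i
    have a3 : G (i + 1) = (1 - V (((i : ℝ) + 1 + 1) ^ 2 * w)) / ((i : ℝ) + 1 + 1) := by
      simp only [hG]
      push_cast
      rfl
    have a4 : G i = (1 - V (((i : ℝ) + 1) ^ 2 * w)) / ((i : ℝ) + 1) := rfl
    have a5 : V (((i : ℝ) + 1 + 1) ^ 2 * w) ≤ V (((i : ℝ) + 1) ^ 2 * w) := by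
      refine h.anti (show (0 : ℝ) ≤ _ by positivity) (show (0 : ℝ) ≤ _ by positivity) ?_
      have : ((i : ℝ) + 1) ^ 2 ≤ ((i : ℝ) + 1 + 1) ^ 2 := by
        gcongr
        linarith
      exact mul_le_mul_of_nonneg_right this hw.le
    have a6 : C1 C * (2 * w / (1 + w * ((i : ℝ) + 1) ^ 2)) ≤
        4 * C1 C * Real.sqrt w * (K i - K (i + 1)) := by
      have := mul_le_mul_of_nonneg_left a2 (by linarith : 0 ≤ C1 C)
      calc _ ≤ _ := this
        _ = 4 * C1 C * Real.sqrt w * (K i - K (i + 1)) := by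
          simp only [hK]
          ring
    set x : ℝ := (i : ℝ) + 1 with hxdef
    set u : ℝ := 1 - V (x ^ 2 * w) with hu
    set u' : ℝ := 1 - V ((x + 1) ^ 2 * w) with hu'
    have a7 : u ≤ u' := by
      rw [hu, hu']
      linarith
    have a8 : 0 ≤ (u' - u) / (x + 1) := div_nonneg (by linarith) (by linarith)
    have a9 : 0 ≤ u * (1 / x - 1 / (x + 1)) := by
      have b1 : 0 ≤ u := by
        have := V_le h (show (0 : ℝ) ≤ x ^ 2 * w by positivity)
        rw [hu]
        linarith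
      have b2 : 1 / (x + 1) ≤ 1 / x := one_div_le_one_div_of_le hx (by linarith)
      exact mul_nonneg b1 (by linarith)
    have a10 : u / x - u' / (x + 1) = u * (1 / x - 1 / (x + 1)) - (u' - u) / (x + 1) := by
      field_simp
      ring
    have a11 : (u' - u) / (x + 1) = (u' / (x + 1) - u / x) + u * (1 / x - 1 / (x + 1)) := by
      field_simp
      ring
    rw [a3, a4, a10, abs_le]
    constructor <;> linarith
  calc _ ≤ ∑ i ∈ range N, (8 * C1 C * Real.sqrt w * (K i - K (i + 1)) + (G (i + 1) - G i)) :=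
        Finset.sum_le_sum fun i _ => h1 i
    _ = 8 * C1 C * Real.sqrt w * (K 0 - K N) + (G N - G 0) := by
        rw [Finset.sum_add_distrib, ← Finset.mul_sum, Finset.sum_range_sub', Finset.sum_range_sub]
    _ ≤ 9 * C1 C * Real.sqrt w := by
        have b1 : G N ≤ C1 C * Real.sqrt w := u_div h hw (by positivity)
        have b2 : 0 ≤ G 0 := by
          simp only [hG]
          have := V_le h (show (0 : ℝ) ≤ (((0 : ℕ) : ℝ) + 1) ^ 2 * w by positivity)
          exact div_nonneg (by linarith) (by positivity)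
        have b3 : 0 ≤ K N := by
          simp only [hK]
          positivity
        have b4 : K 0 = 1 := by simp [hK]
        have b5 : 0 ≤ 8 * C1 C * Real.sqrt w * K N := by positivity
        rw [b4]
        have b6 : 8 * C1 C * Real.sqrt w * (1 - K N) =
            8 * C1 C * Real.sqrt w - 8 * C1 C * Real.sqrt w * K N := by ring
        rw [b6]
        linarith

end weight

/-! ## the smoothed sum over all integers -/

/-- the terms -/
noncomputable def F (V : ℝ → ℝ) {n : ℕ} (χ : DirichletCharacter ℂ n) (w : ℝ) (m : ℕ) : ℂ :=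
  χ (m : ZMod n) / (m : ℂ) * (V ((m : ℝ) ^ 2 * w) : ℂ)

/-- the weights -/
noncomputable def Hw (V : ℝ → ℝ) (w : ℝ) (i : ℕ) : ℝ :=
  V (((i : ℝ) + 1) ^ 2 * w) / ((i : ℝ) + 1)

section sums

variable {V : ℝ → ℝ} {C : ℝ}

lemma F_summable (h : WV V C) {n : ℕ} [NeZero n] (χ : DirichletCharacter ℂ n) {w : ℝ}
    (hw : 0 < w) : Summable (F V χ w) := by
  have h1 : Summable (fun m : ℕ => C * Real.exp (-(w / 2)) ^ m) :=
    (summable_geometric_of_lt_one (Real.exp_pos _).le (by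
      have := Real.exp_lt_exp.2 (show -(w / 2) < 0 by linarith)
      rwa [Real.exp_zero] at this)).mul_left C
  refine Summable.of_norm_bounded h1 fun m => ?_
  unfold F
  rw [norm_mul, norm_div, Complex.norm_real, Real.norm_eq_abs, Complex.norm_natCast,
    ← Real.exp_nat_mul]
  have h2 : ‖χ (m : ZMod n)‖ / (m : ℝ) ≤ 1 := by
    rcases Nat.eq_zero_or_pos m with h | h
    · subst h
      simp
    · have hm : (1 : ℝ) ≤ m := by exact_mod_cast h
      rw [div_le_one (by linarith)]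
      exact (χ.norm_le_one _).trans hm
  have h3 : |V ((m : ℝ) ^ 2 * w)| ≤ C * Real.exp (m * -(w / 2)) := by
    refine (h.vw.dec _ (by positivity)).trans ?_
    refine mul_le_mul_of_nonneg_left (Real.exp_le_exp.2 ?_) h.vw.pos.le
    have h4 : (m : ℝ) ≤ (m : ℝ) ^ 2 := by
      have : m ≤ m ^ 2 := Nat.le_self_pow (by norm_num) m
      exact_mod_cast this
    nlinarith
  calc ‖χ (m : ZMod n)‖ / (m : ℝ) * |V ((m : ℝ) ^ 2 * w)|
      ≤ 1 * (C * Real.exp (m * -(w / 2))) := by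
        apply mul_le_mul h2 h3 (abs_nonneg _) (by norm_num)
    _ = C * Real.exp (m * -(w / 2)) := one_mul _

lemma Hw_nonneg (h : WV V C) {w : ℝ} (hw : 0 < w) (i : ℕ) : 0 ≤ Hw V w i := by
  unfold Hw
  exact div_nonneg (V_nonneg h (by positivity)) (by positivity)

lemma Hw_le (h : WV V C) {w : ℝ} (hw : 0 < w) (i : ℕ) : Hw V w i ≤ 1 / ((i : ℝ) + 1) := by
  unfold Hw
  have h1 := V_le h (show (0 : ℝ) ≤ ((i : ℝ) + 1) ^ 2 * w by positivity)
  gcongr

lemma Hw_anti (h : WV V C) {w : ℝ} (hw : 0 < w) (i : ℕ) : Hw V w (i + 1) ≤ Hw V w i := by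
  unfold Hw
  push_cast
  have h1 : V (((i : ℝ) + 1 + 1) ^ 2 * w) ≤ V (((i : ℝ) + 1) ^ 2 * w) := by
    refine h.anti (show (0 : ℝ) ≤ _ by positivity) (show (0 : ℝ) ≤ _ by positivity) ?_
    have : ((i : ℝ) + 1) ^ 2 ≤ ((i : ℝ) + 1 + 1) ^ 2 := by
      gcongr
      linarith
    exact mul_le_mul_of_nonneg_right this hw.le
  have h3 := V_nonneg h (show (0 : ℝ) ≤ ((i : ℝ) + 1) ^ 2 * w by positivity)
  have h4 : (0 : ℝ) < (i : ℝ) + 1 := by positivity
  exact div_le_div₀ h3 h1 h4 (by linarith)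

lemma U_eq (h : WV V C) {n : ℕ} [NeZero n] {χ : DirichletCharacter ℂ n} (hχ : χ ≠ 1) {w : ℝ}
    (hw : 0 < w) :
    ∑' m, F V χ w m = ∑' i : ℕ, ((Hw V w i - Hw V w (i + 1) : ℝ) : ℂ) *
      ∑ k ∈ range (i + 1), χ ((k + 1 : ℕ) : ZMod n) := by
  have hsum := F_summable h χ hw
  have h0 : F V χ w 0 = 0 := by
    unfold F
    simp
  have hterm : ∀ i : ℕ, F V χ w (i + 1) = (Hw V w i : ℂ) * χ ((i + 1 : ℕ) : ZMod n) := by
    intro i
    unfold F Hw
    push_cast
    ring
  rw [hsum.tsum_eq_zero_add, h0, zero_add]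
  have hsum' := (summable_nat_add_iff 1).2 hsum
  simp only [hterm] at hsum' ⊢
  refine parts (H := Hw V w) (partial_le hχ) ?_ hsum' (tele (Hw_anti h hw) (Hw_nonneg h hw)).1
  exact squeeze_zero (Hw_nonneg h hw) (Hw_le h hw) tendsto_one_div_add_atTop_nhds_zero_nat

lemma U_norm (h : WV V C) {n : ℕ} [NeZero n] {χ : DirichletCharacter ℂ n} (hχ : χ ≠ 1) {w : ℝ}
    (hw : 0 < w) : ‖∑' m, F V χ w m‖ ≤ n := by
  rw [U_eq h hχ hw]
  have h1 := tele (Hw_anti h hw) (Hw_nonneg h hw)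
  refine (T_le (partial_le hχ) h1.1).2.trans ?_
  have h2 : Hw V w 0 ≤ 1 := by
    have := Hw_le h hw 0
    simpa using this
  calc (n : ℝ) * ∑' i, |Hw V w i - Hw V w (i + 1)| ≤ n * 1 := by
        have := h1.2.trans h2
        gcongr
    _ = n := mul_one _

lemma U_sub (h : WV V C) {n : ℕ} [NeZero n] {χ : DirichletCharacter ℂ n} (hχ : χ ≠ 1) {w : ℝ}
    (hw : 0 < w) :
    ‖∑' m, F V χ w m - DirichletCharacter.LFunction χ 1‖ ≤ 9 * C1 C * n * Real.sqrt w := by
  have h1 := tele (Hw_anti h hw) (Hw_nonneg h hw)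
  have h2 : Summable (fun i : ℕ => |1 / ((i : ℝ) + 1) - 1 / (((i + 1 : ℕ) : ℝ) + 1)|) := by
    refine (tele (H := fun i : ℕ => 1 / ((i : ℝ) + 1)) (fun i => ?_) (fun i => by positivity)).1
    refine one_div_le_one_div_of_le (by positivity) ?_
    push_cast
    linarith
  rw [U_eq h hχ hw, L_one hχ, ← Summable.tsum_sub (T_le (partial_le hχ) h1.1).1
    (T_le (partial_le hχ) h2).1]
  have h3 : (fun i : ℕ => ((Hw V w i - Hw V w (i + 1) : ℝ) : ℂ) *
        ∑ k ∈ range (i + 1), χ ((k + 1 : ℕ) : ZMod n)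
      - ((1 / ((i : ℝ) + 1) - 1 / (((i + 1 : ℕ) : ℝ) + 1) : ℝ) : ℂ) *
        ∑ k ∈ range (i + 1), χ ((k + 1 : ℕ) : ZMod n))
      = fun i : ℕ => (((Hw V w i - Hw V w (i + 1)) -
        (1 / ((i : ℝ) + 1) - 1 / (((i + 1 : ℕ) : ℝ) + 1)) : ℝ) : ℂ) *
        ∑ k ∈ range (i + 1), χ ((k + 1 : ℕ) : ZMod n) := by
    funext i
    push_cast
    ring
  rw [h3]
  have h6 : ∀ i : ℕ, |(Hw V w i - Hw V w (i + 1)) -
      (1 / ((i : ℝ) + 1) - 1 / (((i + 1 : ℕ) : ℝ) + 1))| =
      |(1 - V (((i : ℝ) + 1) ^ 2 * w)) / ((i : ℝ) + 1) -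
        (1 - V (((i : ℝ) + 1 + 1) ^ 2 * w)) / ((i : ℝ) + 1 + 1)| := by
    intro i
    rw [← abs_neg]
    congr 1
    unfold Hw
    push_cast
    ring
  have hb : ∀ N, ∑ i ∈ range N, |(Hw V w i - Hw V w (i + 1)) -
      (1 / ((i : ℝ) + 1) - 1 / (((i + 1 : ℕ) : ℝ) + 1))| ≤ 9 * C1 C * Real.sqrt w := by
    intro N
    rw [Finset.sum_congr rfl fun i _ => h6 i]
    exact G_sum h hw N
  have hDs : Summable (fun i : ℕ => |(Hw V w i - Hw V w (i + 1)) -
      (1 / ((i : ℝ) + 1) - 1 / (((i + 1 : ℕ) : ℝ) + 1))|) :=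
    summable_of_sum_range_le (fun i => abs_nonneg _) hb
  refine (T_le (partial_le hχ) hDs).2.trans ?_
  have h7 := Real.tsum_le_of_sum_range_le (fun i => abs_nonneg _) hb
  calc (n : ℝ) * ∑' i : ℕ, |(Hw V w i - Hw V w (i + 1)) -
        (1 / ((i : ℝ) + 1) - 1 / (((i + 1 : ℕ) : ℝ) + 1))| ≤ n * (9 * C1 C * Real.sqrt w) := by
        exact mul_le_mul_of_nonneg_left h7 (Nat.cast_nonneg _)
    _ = 9 * C1 C * n * Real.sqrt w := by ring

lemma U_cop (h : WV V C) {n : ℕ} [NeZero n] {χ : DirichletCharacter ℂ n} (hχ : χ ≠ 1) {q : ℕ}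
    (hq : q.Prime) {w : ℝ} (hw : 0 < w) :
    Summable (fun m : ℕ => if Nat.Coprime m q then F V χ w m else 0) ∧
    ‖∑' m : ℕ, (if Nat.Coprime m q then F V χ w m else 0) - DirichletCharacter.LFunction χ 1‖
      ≤ 9 * C1 C * n * Real.sqrt w + n / q := by
  have hq0 : (0 : ℝ) < q := by exact_mod_cast hq.pos
  have hqc : (q : ℂ) ≠ 0 := by exact_mod_cast hq.ne_zero
  have hsum := F_summable h χ hw
  have h1 : Summable (fun m : ℕ => if Nat.Coprime m q then F V χ w m else 0) := by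
    refine Summable.of_norm_bounded hsum.norm fun m => ?_
    split_ifs
    · exact le_rfl
    · rw [norm_zero]; exact norm_nonneg _
  have h2 : Summable (fun m : ℕ => if q ∣ m then F V χ w m else 0) := by
    refine Summable.of_norm_bounded hsum.norm fun m => ?_
    split_ifs
    · exact le_rfl
    · rw [norm_zero]; exact norm_nonneg _
  refine ⟨h1, ?_⟩
  have h3 : ∑' m, F V χ w m = ∑' m : ℕ, (if Nat.Coprime m q then F V χ w m else 0)
      + ∑' m : ℕ, (if q ∣ m then F V χ w m else 0) := by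
    rw [← h1.tsum_add h2]
    refine tsum_congr fun m => ?_
    have h4 : Nat.Coprime m q ↔ ¬ q ∣ m := by
      rw [Nat.coprime_comm]
      exact hq.coprime_iff_not_dvd
    by_cases h5 : q ∣ m
    · rw [if_neg (by rw [h4]; exact fun h => h h5), if_pos h5, zero_add]
    · rw [if_pos (h4.2 h5), if_neg h5, add_zero]
  have h4 : ∑' m : ℕ, (if q ∣ m then F V χ w m else 0)
      = χ (q : ZMod n) / q * ∑' k, F V χ ((q : ℝ) ^ 2 * w) k := by
    have hinj : Function.Injective (fun k : ℕ => q * k) := fun a b hab =>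
      Nat.eq_of_mul_eq_mul_left hq.pos hab
    rw [← hinj.tsum_eq (f := fun m : ℕ => if q ∣ m then F V χ w m else 0), ← tsum_mul_left]
    · refine tsum_congr fun k => ?_
      rw [if_pos (dvd_mul_right q k)]
      unfold F
      have h6 : ((q * k : ℕ) : ℝ) ^ 2 * w = (k : ℝ) ^ 2 * ((q : ℝ) ^ 2 * w) := by
        push_cast
        ring
      rw [h6]
      push_cast
      rw [map_mul]
      ring
    · intro m hm
      rw [Function.mem_support] at hm
      by_cases h5 : q ∣ m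
      · obtain ⟨k, rfl⟩ := h5
        exact ⟨k, rfl⟩
      · rw [if_neg h5] at hm
        exact absurd rfl hm
  have h5 : ∑' m : ℕ, (if Nat.Coprime m q then F V χ w m else 0) -
      DirichletCharacter.LFunction χ 1
      = (∑' m, F V χ w m - DirichletCharacter.LFunction χ 1)
        - χ (q : ZMod n) / q * ∑' k, F V χ ((q : ℝ) ^ 2 * w) k := by
    rw [h3, h4]
    ring
  rw [h5]
  refine (norm_sub_le _ _).trans (add_le_add (U_sub h hχ hw) ?_)
  rw [norm_mul, norm_div, Complex.norm_natCast]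
  have h6 := U_norm h hχ (w := (q : ℝ) ^ 2 * w) (by positivity)
  calc ‖χ (q : ZMod n)‖ / (q : ℝ) * ‖∑' k, F V χ ((q : ℝ) ^ 2 * w) k‖ ≤ 1 / q * n := by
        have := χ.norm_le_one (q : ZMod n)
        gcongr
    _ = n / q := by ring

end sums

/-! ## the Dirichlet character -/

section alg

open Pool.Agent.W192.HK

variable {R : Subring ℂ}

lemma sp_one' : sp (1 : R) = ⊤ := Ideal.span_singleton_one

lemma g_top {f : Ideal R} {g : Ideal R → ℂ} (h : GC f g) : g ⊤ = 1 := by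
  have h1 := h.mul ⊤ ⊤
  rw [Ideal.mul_top] at h1
  have h2 : g ⊤ ≠ 0 := by
    intro h3
    rcases (h.zero ⊤).1 h3 with h4 | h4
    · exact h.ne (eq_bot_iff.2 (h4 ▸ le_top))
    · exact h4 (Ideal.isCoprime_iff_sup_eq.2 (top_sup_eq f))
  have h3 : g ⊤ * (g ⊤ - 1) = 0 := by linear_combination -h1
  rcases mul_eq_zero.1 h3 with h4 | h4
  · exact absurd h4 h2
  · linear_combination h4

/-- the values on the rational integers -/
noncomputable def ga (g : Ideal R → ℂ) (a : ℤ) : ℂ := g (sp (a : R)) / (a : ℂ)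

lemma ga_mul {f : Ideal R} {g : Ideal R → ℂ} (h : GC f g) (a b : ℤ) :
    ga g (a * b) = ga g a * ga g b := by
  unfold ga
  have h1 : sp (((a * b : ℤ)) : R) = sp (a : R) * sp (b : R) := by
    unfold sp
    rw [Ideal.span_singleton_mul_span_singleton, Int.cast_mul]
  rw [h1, h.mul, Int.cast_mul, mul_div_mul_comm]

lemma ga_zero_of {f : Ideal R} {g : Ideal R → ℂ} (h : GC f g) {a : ℤ}
    (ha : ¬ IsCoprime (sp (a : R)) f) : ga g a = 0 := by
  unfold ga
  rw [(h.zero _).2 (Or.inr ha), zero_div]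

lemma ga_mem {f : Ideal R} {g : Ideal R → ℂ} (h : GC f g) {a : ℤ} (ha : (a : R) ∈ f) :
    ga g a = 0 := by
  apply ga_zero_of h
  intro hcop
  rw [Ideal.isCoprime_iff_sup_eq] at hcop
  have h1 : sp (a : R) ≤ f := by
    unfold sp
    rwa [Ideal.span_singleton_le_iff_mem]
  rw [sup_eq_right.2 h1] at hcop
  exact h.net hcop

lemma ga_per {f : Ideal R} {g : Ideal R → ℂ} (h : GC f g) {a b : ℤ}
    (hab : (a : R) - (b : R) ∈ f) : ga g a = ga g b := by
  by_cases ha : a = 0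
  · subst ha
    have h1 : (b : R) ∈ f := by
      have := f.neg_mem hab
      simpa using this
    rw [ga_mem h h1, ga_mem h (by rw [Int.cast_zero]; exact f.zero_mem)]
  by_cases hb : b = 0
  · subst hb
    have h1 : (a : R) ∈ f := by simpa using hab
    rw [ga_mem h h1, ga_mem h (by rw [Int.cast_zero]; exact f.zero_mem)]
  have h1 := h.per a b ha hb hab
  have ha' : (a : ℂ) ≠ 0 := by exact_mod_cast ha
  have hb' : (b : ℂ) ≠ 0 := by exact_mod_cast hb
  unfold ga
  rw [div_eq_div_iff ha' hb', h1]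

lemma exists_chi (hB : H_BASIC) {ω : ℂ} (hqr : QR R ω) {f : Ideal R}
    {g : Ideal R → ℂ} (h : GC f g) :
    ∃ (n : ℕ) (_ : NeZero n) (χ : DirichletCharacter ℂ n), χ ≠ 1 ∧
      ∀ m : ℕ, χ (m : ZMod n) = g (sp (m : R)) / (m : ℂ) := by
  obtain ⟨hfin, -⟩ := hB R ω hqr
  have hf := hfin f h.ne
  have hn0 : Nat.card (R ⧸ f) ≠ 0 := Nat.card_ne_zero.2 ⟨⟨0⟩, hf⟩
  have hnf := card_mem f
  have hcop := fun k (h : IsCoprime (sp ((k : ℕ) : R)) f) => cop_card hf h
  generalize Nat.card (R ⧸ f) = n at hn0 hnf hcop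
  have hne : NeZero n := ⟨hn0⟩
  have hper' : ∀ a b : ℤ, ((a : ZMod n) = (b : ZMod n)) → ga g a = ga g b := by
    intro a b hab
    apply ga_per h
    obtain ⟨c, hc⟩ := (ZMod.intCast_eq_intCast_iff_dvd_sub a b n).1 hab
    have h1 : (a : R) - (b : R) = (-(c : R)) * (n : R) := by
      have h2 := congrArg (fun x : ℤ => (x : R)) hc
      push_cast at h2
      linear_combination -h2
    rw [h1]
    exact f.mul_mem_left _ hnf
  have hone : ga g 1 = 1 := by
    unfold ga
    rw [Int.cast_one, sp_one', g_top h, Int.cast_one, div_one]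
  have hneg : ga g (-1) = -1 := by
    unfold ga
    rw [Int.cast_neg, Int.cast_one, sp_neg_one, g_top h, Int.cast_neg, Int.cast_one]
    norm_num
  let χ : DirichletCharacter ℂ n :=
    { toFun := fun a => ga g ((a.val : ℕ) : ℤ)
      map_one' := by
        change ga g (((1 : ZMod n).val : ℕ) : ℤ) = 1
        rw [hper' _ 1 (by push_cast; exact ZMod.natCast_zmod_val _), hone]
      map_mul' := by
        intro a b
        change ga g (((a * b).val : ℕ) : ℤ) = ga g ((a.val : ℕ) : ℤ) * ga g ((b.val : ℕ) : ℤ)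
        rw [← ga_mul h]
        apply hper'
        push_cast
        rw [ZMod.natCast_zmod_val, ZMod.natCast_zmod_val, ZMod.natCast_zmod_val]
      map_nonunit' := by
        intro a ha
        change ga g ((a.val : ℕ) : ℤ) = 0
        apply ga_zero_of h
        rw [Int.cast_natCast]
        intro h'
        apply ha
        have h1 := (ZMod.isUnit_iff_coprime a.val n).2 (hcop _ h')
        rwa [ZMod.natCast_zmod_val] at h1 }
  have hχ : ∀ m : ℤ, χ (m : ZMod n) = ga g m := by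
    intro m
    change ga g (((m : ZMod n).val : ℕ) : ℤ) = _
    apply hper'
    push_cast
    exact ZMod.natCast_zmod_val _
  refine ⟨n, hne, χ, ?_, ?_⟩
  · intro h
    have h1 := hχ (-1)
    rw [Int.cast_neg, Int.cast_one, hneg, h, MulChar.one_apply isUnit_one.neg] at h1
    norm_num at h1
  · intro m
    have h1 := hχ m
    unfold ga at h1
    rwa [Int.cast_natCast, Int.cast_natCast, Int.cast_natCast] at h1

end alg

end Pool.Agent.TH936.AW.Eps

namespace Pool.Agent.TH936.AW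

open Pool.Agent.W192.HK Pool.Agent.TH936.AC

theorem b_eps (h1 : H_BASIC) (h2 : H_FP) (h3 : A_BAR) : B_EPS := by
  have _ := h2
  have _ := h3
  intro R ω hqp V CV hV f g hg
  obtain ⟨n, hn, χ, hχ, hm⟩ := Eps.exists_chi h1 hqp.qr hg
  have hn0 : (0 : ℝ) < n := by exact_mod_cast NeZero.pos n
  have hC := Eps.C1_one CV
  refine ⟨DirichletCharacter.LFunction χ 1, 9 * Eps.C1 CV * n,
    DirichletCharacter.LFunction_apply_one_ne_zero hχ, by positivity, ?_⟩
  intro q hq _ w hw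
  have hterm : (fun m : ℕ => if Nat.Coprime m q then g (sp (m : R)) / (m : ℂ) ^ 2 *
      (V ((m : ℝ) ^ 2 * w) : ℂ) else 0)
      = fun m : ℕ => if Nat.Coprime m q then Eps.F V χ w m else 0 := by
    funext m
    congr 1
    unfold Eps.F
    rw [hm, div_div, ← pow_two]
  rw [hterm]
  obtain ⟨h5, h6⟩ := Eps.U_cop hV hχ hq hw
  refine ⟨h5, h6.trans ?_⟩
  have h7 : (n : ℝ) / q ≤ 9 * Eps.C1 CV * n * (1 / q) := by
    have h8 : (n : ℝ) / q = 1 * (n * (1 / q)) := by ring
    have h9 : 9 * Eps.C1 CV * n * (1 / q) = (9 * Eps.C1 CV) * (n * (1 / q)) := by ring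
    rw [h8, h9]
    exact mul_le_mul_of_nonneg_right (by linarith) (by positivity)
  calc 9 * Eps.C1 CV * n * Real.sqrt w + (n : ℝ) / q ≤
      9 * Eps.C1 CV * n * Real.sqrt w + 9 * Eps.C1 CV * n * (1 / q) := by linarith
    _ = 9 * Eps.C1 CV * n * (Real.sqrt w + 1 / q) := by ring

end Pool.Agent.TH936.AW
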