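import Pool.Agent.TH936.HK.AFE
import Pool.Agent.TH936.AW.Stmts

/-!
# Project AW, part FE: functional equation and central value, weight 2 m

Adapted from Pool.Agent.TH936.AC.Fe (helper209).
-/

set_option autoImplicit false

open Complex Filter Topology Set MeasureTheory

namespace Pool.Agent.TH936.AW

open Pool.Agent.W192.HK Pool.Agent.TH936.AC

namespace Fe

open Pool.Agent.W192.CY (VW Vk)
open Pool.Agent.TH936.HK
open Pool.Agent.W108.TW
open Pool.Agent.W283.HK.AFE0 (fib fib_fin)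

theorem mellinFk {b : ℕ → ℂ} {m C c : ℝ} (hc : 0 < c) (hb0 : b 0 = 0) (hm : 0 ≤ m)
    (hb : ∀ n : ℕ, 1 ≤ n → ‖b n‖ ≤ C * (n : ℝ) ^ m) {w : ℂ} (hw : w ≠ 0) {k : ℕ} (hk0 : 0 < k)
    (hrel : ∀ x : ℝ, 0 < x → Th b c (1 / x) = w * (x : ℂ) ^ k * Th b c x) :
    ∃ F : ℂ → ℂ, Differentiable ℂ F ∧
      (∀ s : ℂ, m + 2 < s.re → F s = ∑' n : ℕ, b n * (n : ℂ) ^ (-s)) ∧
      (∀ s : ℂ, 0 < s.re → s.re < k → (c : ℂ) ^ (-s) * Complex.Gamma s * F s =
        w * ((c : ℂ) ^ (-((k : ℂ) - s)) * Complex.Gamma ((k : ℂ) - s) * F ((k : ℂ) - s))) ∧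
      ((∀ x : ℝ, 0 < x → Th b c x = 0) → ∀ s, F s = 0) := by
  let P : WeakFEPair ℂ :=
    { f := Th b c
      g := Th b c
      k := (k : ℝ)
      ε := w
      f₀ := 0
      g₀ := 0
      hf_int := (continuousOn_Th hb0 hb hc).locallyIntegrableOn measurableSet_Ioi
      hg_int := (continuousOn_Th hb0 hb hc).locallyIntegrableOn measurableSet_Ioi
      hk := by exact_mod_cast hk0
      hε := hw
      h_feq := by
        intro x (hx : 0 < x)
        rw [hrel x hx, smul_eq_mul]
        congr 2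
        rw [Real.rpow_natCast]
        push_cast
        rfl
      hf_top := Th_isBigO hb0 hb hc
      hg_top := Th_isBigO hb0 hb hc }
  have hP : IsStrongFEPair P := ⟨rfl, rfl⟩
  have hΛf : P.Λ = mellin (Th b c) := hP.Λ_eq
  have hΛg : P.symm.Λ = mellin (Th b c) := hP.symm_Λ_eq
  have hcC : (c : ℂ) ≠ 0 := by exact_mod_cast hc.ne'
  let F : ℂ → ℂ := fun s => P.Λ s * (c : ℂ) ^ s * (Complex.Gamma s)⁻¹
  refine ⟨F, ?_, ?_, ?_, ?_⟩
  · -- differentiable
    have h1 : Differentiable ℂ (fun s : ℂ => P.Λ s) := hP.differentiable_Λ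
    have h2 : Differentiable ℂ (fun s : ℂ => (c : ℂ) ^ s) := by
      intro s
      exact (DifferentiableAt.const_cpow (by fun_prop) (Or.inl hcC))
    have h3 : Differentiable ℂ (fun s : ℂ => (Complex.Gamma s)⁻¹) :=
      Complex.differentiable_one_div_Gamma
    exact (h1.mul h2).mul h3
  · -- Dirichlet series
    intro S hSm
    have hSpos : 0 < S.re := by linarith
    have hG : Complex.Gamma S ≠ 0 := Complex.Gamma_ne_zero_of_re_pos hSpos
    have h1 := hasSum_mellin (a := b) (p := fun n : ℕ => c * n) (F := Th b c) (s := S)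
      (by
        intro n
        rcases Nat.eq_zero_or_pos n with rfl | hn
        · exact Or.inl hb0
        · right
          have : (0 : ℝ) < n := by exact_mod_cast hn
          positivity) hSpos
      (by
        intro t (ht : 0 < t)
        exact (summable_term hb0 hb hc ht).hasSum)
      (by
        have h2 : Summable (fun n : ℕ => |C| / c ^ S.re * (n : ℝ) ^ (m - S.re)) :=
          (Real.summable_nat_rpow.mpr (by linarith)).mul_left _
        refine Summable.of_nonneg_of_le (fun n => by positivity) (fun n => ?_) h2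
        rcases Nat.eq_zero_or_pos n with rfl | hn
        · rw [hb0, norm_zero, zero_div]; positivity
        · have hn' : (0 : ℝ) < n := by exact_mod_cast hn
          have h3 : ‖b n‖ ≤ |C| * (n : ℝ) ^ m :=
            (hb n hn).trans (mul_le_mul_of_nonneg_right (le_abs_self C) (by positivity))
          rw [Real.mul_rpow hc.le hn'.le, Real.rpow_sub hn', div_mul_div_comm]
          exact div_le_div_of_nonneg_right h3 (by positivity))
    have h2 := h1.tsum_eq
    have h3 : F S = (∑' n : ℕ, Complex.Gamma S * b n / ((c * n : ℝ) : ℂ) ^ S) * (c : ℂ) ^ S *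
        (Complex.Gamma S)⁻¹ := by
      simp only [F]
      rw [hΛf, ← h2]
    have hcs : (c : ℂ) ^ S ≠ 0 := by
      rw [Complex.cpow_def_of_ne_zero hcC]; exact Complex.exp_ne_zero _
    rw [h3, ← tsum_mul_right, ← tsum_mul_right]
    refine tsum_congr (fun n => ?_)
    rcases Nat.eq_zero_or_pos n with rfl | hn
    · rw [hb0]; simp
    · have hn' : (n : ℂ) ≠ 0 := by exact_mod_cast hn.ne'
      have hnS : (n : ℂ) ^ S ≠ 0 := by
        rw [Complex.cpow_def_of_ne_zero hn']; exact Complex.exp_ne_zero _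
      rw [Complex.ofReal_mul, Complex.mul_cpow_ofReal_nonneg hc.le (Nat.cast_nonneg n),
        Complex.cpow_neg]
      simp only [Complex.ofReal_natCast]
      field_simp
  · -- functional equation
    have key : ∀ s : ℂ, 0 < s.re → (c : ℂ) ^ (-s) * Complex.Gamma s * F s = P.Λ s := by
      intro s hs
      have hG : Complex.Gamma s ≠ 0 := Complex.Gamma_ne_zero_of_re_pos hs
      have e : (c : ℂ) ^ (-s) * (c : ℂ) ^ s = 1 := by
        rw [← Complex.cpow_add _ _ hcC, neg_add_cancel, Complex.cpow_zero]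
      calc (c : ℂ) ^ (-s) * Complex.Gamma s * (P.Λ s * (c : ℂ) ^ s * (Complex.Gamma s)⁻¹)
          = ((c : ℂ) ^ (-s) * (c : ℂ) ^ s) * (Complex.Gamma s * (Complex.Gamma s)⁻¹) * P.Λ s := by
            ring
        _ = P.Λ s := by rw [e, mul_inv_cancel₀ hG]; ring
    intro s h0 h2
    rw [key s h0, key ((k : ℂ) - s) (by simp; linarith)]
    have h := P.functional_equation ((k : ℂ) - s)
    have hk : (P.k : ℂ) = (k : ℂ) := by
      show ((k : ℝ) : ℂ) = (k : ℂ)
      norm_num
    rw [hk, sub_sub_cancel, hΛg, ← hΛf] at h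
    exact h
  · intro hz s
    have : P.Λ s = 0 := by
      rw [hΛf, mellin]
      refine setIntegral_eq_zero_of_forall_eq_zero fun t ht => ?_
      rw [hz t ht, smul_zero]
    simp only [F]
    rw [this, zero_mul, zero_mul]

end Fe

open Fe
open Pool.Agent.W192.CY (VW Vk)
open Pool.Agent.TH936.HK
open Pool.Agent.W108.TW
open Pool.Agent.W283.HK.AFE0 (fib fib_fin)

theorem b_fe (h1 : H_BASIC) (h2 : H_FP) (h3 : H_CNT) (h4 : H_GAUSS) (h5 : H_THETA) (h6 : H_AFE)
    (h7 : A_BAR) : B_FE := by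
  intro R ω hQP m hm q ψ hψ hCS s hh μ T hS W hWd
  have hR := hQP.qr
  have hψ' : HC (2 * m - 1) q ψ := hψ
  have hqt := hψ'.ne_top hm
  have hW := Wc_ne h1 h4 hR hm hψ' hS
  rw [← hWd] at hW
  obtain ⟨F, hFd, hFs, hFc⟩ := h6 R ω hR m hm q ψ hψ' s hh μ T hS
  have hth := h5 R ω hR m hm q ψ hψ' s hh μ T hS
  rw [← hWd] at hth
  rw [← hWd] at hFc
  obtain ⟨-, -, a3, -, -, -, -, a8, -⟩ := h7 R ω hQP
  obtain ⟨-, b2, b3, b4, b5, -, b7, -⟩ := h1 R ω hR
  obtain ⟨c1, c2, C, hC, c3, -⟩ := h3 R ω hR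
  obtain ⟨f1, -⟩ := h2 R ω hR _ q ψ hψ' hqt
  have hψ0 : ψ ⊥ = 0 := (hψ.zero ⊥).2 (Or.inl rfl)
  have hψ1 : ψ ⊤ = 1 := by
    have e1 := hψ.mul ⊤ ⊤
    rw [Ideal.mul_top] at e1
    have e2 : ψ ⊤ ≠ 0 := by
      intro h
      rcases (hψ.zero ⊤).1 h with h | h
      · have := b3 q hψ.ne
        have h9 := (b7 (⊤ : Ideal R)).2 rfl
        rw [h, b2] at h9
        norm_num at h9
      · exact h (Ideal.isCoprime_iff_sup_eq.2 (top_sup_eq q))
    have e3 : ψ ⊤ * (ψ ⊤ - 1) = 0 := by
      linear_combination -e1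
    rcases mul_eq_zero.1 e3 with h | h
    · exact absurd h e2
    · exact sub_eq_zero.1 h
  set N : Ideal R → ℕ := fun I => Nat.card (R ⧸ I) with hN
  have hNn : ∀ I : Ideal R, nm I = (N I : ℝ) := fun I => rfl
  have hNc : ∀ I : Ideal R, (nm I : ℂ) = (N I : ℂ) := fun I => by
    rw [hNn, Complex.ofReal_natCast]
  have hNbar : ∀ I : Ideal R, N (bar I) = N I := by
    intro I
    have := a8 I
    rw [hNn, hNn] at this
    exact_mod_cast this
  have hω := hR.im
  have hpi := Real.pi_pos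
  have hq1 := b3 q hψ.ne
  have hsq : 0 < Real.sqrt (nm q) := Real.sqrt_pos.2 (by linarith)
  have hS1 : ∀ σ : ℝ, 1 < σ → Summable (fun I : Ideal R => (N I : ℝ) ^ (-σ)) := fun σ hσ => c2 σ hσ
  have hfz : ∀ I, N I = 0 → ψ I = 0 := by
    intro I h0
    by_contra h
    have h6 : I ≠ ⊥ := fun h7 => h ((hψ.zero I).2 (Or.inl h7))
    have h7 := b3 I h6
    rw [hNn, h0] at h7
    norm_num at h7
  set ρ : ℝ := ((2 * m - 1 : ℕ) : ℝ) / 2 with hρ
  have hm1 : (1 : ℝ) ≤ m := by exact_mod_cast hm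
  have hρm : ρ = m - 1 / 2 := by
    rw [hρ, Nat.cast_sub (by omega)]
    push_cast
    ring
  have hf1 : ∀ I, 1 ≤ N I → ‖ψ I‖ ≤ (N I : ℝ) ^ ρ := by
    intro I hI
    have hNI : (0 : ℝ) < N I := by exact_mod_cast hI
    by_cases h : ψ I = 0
    · rw [h, norm_zero]
      positivity
    · have h6 : I ≠ ⊥ ∧ IsCoprime I q := by
        constructor
        · intro h7
          exact h ((hψ.zero I).2 (Or.inl h7))
        · by_contra h7
          exact h ((hψ.zero I).2 (Or.inr h7))
      have h7 := f1 I h6.1 h6.2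
      rw [hNn] at h7
      have h8 : ((N I : ℝ) ^ ρ) ^ 2 = (N I : ℝ) ^ (2 * m - 1) := by
        rw [← Real.rpow_natCast ((N I : ℝ) ^ ρ) 2, ← Real.rpow_mul hNI.le, hρ,
          ← Real.rpow_natCast (N I : ℝ) (2 * m - 1)]
        congr 1
        push_cast
        ring
      have h9 : ‖ψ I‖ ^ 2 ≤ ((N I : ℝ) ^ ρ) ^ 2 := by rw [h7, h8]
      exact le_of_sq_le_sq h9 (by positivity)
  have hcn : ∀ I, 1 ≤ N I → ‖(starRingEnd ℂ) (ψ I)‖ ≤ (N I : ℝ) ^ ρ := by
    intro I hI
    rw [RCLike.norm_conj]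
    exact hf1 I hI
  have hfzc : ∀ I, N I = 0 → (starRingEnd ℂ) (ψ I) = 0 := by
    intro I hI
    rw [hfz I hI, map_zero]
  have hfib : ∀ n : ℕ, (N ⁻¹' {n}).Finite := by
    intro n
    refine (c1 n).subset ?_
    intro I hI
    have : N I = n := hI
    show nm I ≤ n
    rw [hNn, this]
  set b : ℕ → ℂ := fun n => ∑' I : N ⁻¹' {n}, ψ I with hb
  have hbf : ∀ n, b n = ∑ I ∈ (hfib n).toFinset, ψ I := fun n => fib_fin (hfib n) ψ
  have hbc : ∀ n, ∑' I : N ⁻¹' {n}, (starRingEnd ℂ) (ψ I) = (starRingEnd ℂ) (b n) := by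
    intro n
    rw [hbf, fib_fin (hfib n) (fun I => (starRingEnd ℂ) (ψ I)), map_sum]
  have hbr : ∀ n, (starRingEnd ℂ) (b n) = b n := by
    intro n
    rw [hbf, map_sum]
    refine Finset.sum_nbij' bar bar ?_ ?_ ?_ ?_ ?_
    · intro I hI
      rw [Set.Finite.mem_toFinset] at hI ⊢
      have : N I = n := hI
      show N (bar I) = n
      rw [hNbar, this]
    · intro I hI
      rw [Set.Finite.mem_toFinset] at hI ⊢
      have : N I = n := hI
      show N (bar I) = n
      rw [hNbar, this]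
    · intro I _
      exact a3 I
    · intro I _
      exact a3 I
    · intro I _
      exact (hCS I).symm
  have hb0 : b 0 = 0 := by
    rw [hbf]
    refine Finset.sum_eq_zero fun I hI => ?_
    exact hfz I ((hfib 0).mem_toFinset.1 hI)
  have hb1 : b 1 = 1 := by
    rw [hbf, ← hψ1]
    refine Finset.sum_eq_single_of_mem (⊤ : Ideal R) ?_ ?_
    · rw [Set.Finite.mem_toFinset]
      have := (b7 (⊤ : Ideal R)).2 rfl
      rw [hNn] at this
      show N ⊤ = 1
      exact_mod_cast this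
    · intro I hI hne
      rw [Set.Finite.mem_toFinset] at hI
      have h8 : N I = 1 := hI
      exact absurd ((b7 I).1 (by rw [hNn, h8]; norm_num)) hne
  have hρ0 : 0 ≤ ρ + 1 := by rw [hρm]; linarith
  have hbn : ∀ n : ℕ, 1 ≤ n → ‖b n‖ ≤ C * (n : ℝ) ^ (ρ + 1) := by
    intro n hn
    have hn0 : (0 : ℝ) < n := by exact_mod_cast hn
    have hn1 : (1 : ℝ) ≤ n := by exact_mod_cast hn
    rw [hbf]
    refine (norm_sum_le _ _).trans ((Finset.sum_le_sum (g := fun _ => (n : ℝ) ^ ρ)
      fun I hI => ?_).trans ?_)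
    · have h6 : N I = n := (hfib n).mem_toFinset.1 hI
      have h7 := hf1 I (by rw [h6]; exact hn)
      rwa [h6] at h7
    · rw [Finset.sum_const, nsmul_eq_mul, ← Set.ncard_eq_toFinset_card (N ⁻¹' {n}) (hfib n),
        Real.rpow_add hn0, Real.rpow_one, mul_comm ((n : ℝ) ^ ρ) (n : ℝ), ← mul_assoc]
      refine mul_le_mul_of_nonneg_right ?_ (by positivity)
      refine le_trans ?_ (c3 n hn1)
      have := Set.ncard_le_ncard (s := N ⁻¹' {n}) (t := {I : Ideal R | nm I ≤ (n : ℝ)}) (by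
        intro I hI
        have h8 : N I = n := hI
        show nm I ≤ n
        rw [hNn, h8]) (c1 n)
      exact_mod_cast this
  -- the theta function
  set A : ℝ := ω.im * Real.sqrt (nm q) / Real.pi with hA
  have hA0 : 0 < A := by positivity
  set c : ℝ := A⁻¹ with hc
  have hc0 : 0 < c := by positivity
  have hcoef : ∀ x : ℝ, Real.pi * x / (ω.im * Real.sqrt (nm q)) = c * x := by
    intro x
    rw [hc, hA]
    field_simp
  have hThr : ∀ t : ℝ, 0 < t → Th b c t =
      ∑' I : Ideal R, ψ I * (Real.exp (-(c * N I) * t) : ℂ) := by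
    intro t ht
    have s1 := summ_r hS1 ρ ψ hfz hf1 (fun n : ℕ => (Real.exp (-(c * n) * t) : ℂ))
      (A := 1) (c := c * t) (by positivity) (by
        intro n _
        rw [Complex.norm_real, Real.norm_eq_abs, Real.abs_exp, one_mul]
        refine le_of_eq ?_
        congr 1
        ring)
    have e1 := fib (N := N) (f := ψ) (fun n : ℕ => (Real.exp (-(c * n) * t) : ℂ)) s1
    rw [Th]
    exact e1.symm
  have hThc : ∀ t : ℝ, 0 < t → Th b c t =
      ∑' I : Ideal R, (starRingEnd ℂ) (ψ I) * (Real.exp (-(c * N I) * t) : ℂ) := by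
    intro t ht
    have e2 : Th b c t = Th (fun n => (starRingEnd ℂ) (b n)) c t := by
      simp only [hbr]
    rw [e2]
    have s2 := summ_r hS1 ρ (fun I => (starRingEnd ℂ) (ψ I)) hfzc hcn
      (fun n : ℕ => (Real.exp (-(c * n) * t) : ℂ))
      (A := 1) (c := c * t) (by positivity) (by
        intro n _
        rw [Complex.norm_real, Real.norm_eq_abs, Real.abs_exp, one_mul]
        refine le_of_eq ?_
        congr 1
        ring)
    have e2 := fib (N := N) (f := fun I => (starRingEnd ℂ) (ψ I))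
      (fun n : ℕ => (Real.exp (-(c * n) * t) : ℂ)) s2
    simp only [hbc] at e2
    rw [Th]
    exact e2.symm
  have hrel : ∀ x : ℝ, 0 < x → Th b c (1 / x) = W * (x : ℂ) ^ (2 * m) * Th b c x := by
    intro x hx
    have h := hth x hx
    rw [hThr (1 / x) (by positivity), hThc x hx]
    refine Eq.trans ?_ (h.trans ?_)
    · refine tsum_congr fun I => ?_
      rw [hcoef, hNn]
      congr 3
      ring
    · refine congrArg₂ (· * ·) rfl ?_
      refine tsum_congr fun I => ?_
      rw [hcoef, hNn]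
  obtain ⟨G, hGd, hGs, hGf, hGz⟩ := mellinFk hc0 hb0 hρ0 hbn hW (k := 2 * m) (by omega) hrel
  -- `F = G`
  have hFG : F = G := by
    have hFa : AnalyticOnNhd ℂ F Set.univ := fun z _ => hFd.analyticAt z
    have hGa : AnalyticOnNhd ℂ G Set.univ := fun z _ => hGd.analyticAt z
    refine hFa.eq_of_eventuallyEq hGa (z₀ := (((m : ℝ) + 10 : ℝ) : ℂ)) ?_
    have h10 : ∀ᶠ z : ℂ in 𝓝 (((m : ℝ) + 10 : ℝ) : ℂ), (m : ℝ) + 5 < z.re := by
      refine (Complex.continuous_re.isOpen_preimage _ isOpen_Ioi).mem_nhds ?_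
      show (m : ℝ) + 5 < ((((m : ℝ) + 10 : ℝ) : ℂ)).re
      rw [Complex.ofReal_re]
      linarith
    filter_upwards [h10] with z hz
    have hz1 : (m : ℝ) + 1 / 2 < z.re := by linarith
    rw [hGs z (by rw [hρm]; linarith), ← (hFs z hz1).tsum_eq]
    have e4 := fib (N := N) (f := ψ) (fun n : ℕ => (n : ℂ) ^ (-z)) (by
      have := (hFs z hz1).summable
      simpa only [hNc] using this)
    simp only [hNc]
    exact e4
  -- the sign
  have hW2 : W ^ 2 = 1 := by
    by_contra hne
    have hz : ∀ x : ℝ, 0 < x → Th b c x = 0 := by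
      intro x hx
      have e1 := hrel x hx
      have e2 := hrel (1 / x) (by positivity)
      rw [one_div_one_div, e1] at e2
      have hxc : (x : ℂ) ≠ 0 := by exact_mod_cast hx.ne'
      have e5 : ((1 / x : ℝ) : ℂ) ^ (2 * m) * (x : ℂ) ^ (2 * m) = 1 := by
        rw [← mul_pow, Complex.ofReal_div, Complex.ofReal_one, one_div_mul_cancel hxc, one_pow]
      have e3 : Th b c x = W ^ 2 * Th b c x := by
        refine e2.trans ?_
        linear_combination W ^ 2 * Th b c x * e5
      have e4 : (W ^ 2 - 1) * Th b c x = 0 := by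
        linear_combination -e3
      rcases mul_eq_zero.1 e4 with h | h
      · exact absurd (sub_eq_zero.1 h) hne
      · exact h
    have hG0 := hGz hz
    have hter : ∀ (s : ℂ) (n : ℕ), LSeries.term b s n = b n * (n : ℂ) ^ (-s) := by
      intro s n
      unfold LSeries.term
      split_ifs with h0
      · rw [h0, hb0]; ring
      · rw [Complex.cpow_neg, div_eq_mul_inv]
    have hL : (fun x : ℝ => LSeries b x) =ᶠ[atTop] 0 := by
      filter_upwards [eventually_gt_atTop (ρ + 1 + 2)] with x hx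
      have := hGs (x : ℂ) (by simpa using hx)
      rw [hG0] at this
      show LSeries b x = 0
      rw [LSeries, this]
      exact tsum_congr fun n => hter _ n
    rcases LSeries_eventually_eq_zero_iff'.1 hL with h | h
    · have := h 1 one_ne_zero
      rw [hb1] at this
      exact one_ne_zero this
    · have h8 := LSeries.abscissaOfAbsConv_le_of_le_const_mul_rpow (f := b) (x := ρ + 1)
        ⟨C, fun n hn => hbn n (Nat.one_le_iff_ne_zero.2 hn)⟩
      rw [h, top_le_iff] at h8
      exact EReal.coe_ne_top (ρ + 1 + 1) (by exact_mod_cast h8)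
  have hW1 : W = 1 ∨ W = -1 := sq_eq_one_iff.1 hW2
  refine ⟨hW1, F, hFd, ?_, ?_, ?_⟩
  · intro z hz
    exact hFs z hz
  · intro z h0 h2
    have h := hGf z h0 (by push_cast; exact h2)
    push_cast at h
    rw [hFG]
    have hcA : ∀ s : ℂ, (c : ℂ) ^ (-s) = (A : ℂ) ^ s := by
      intro s
      rw [hc, Complex.ofReal_inv, Complex.inv_cpow _ _ (by
        rw [Complex.arg_ofReal_of_nonneg hA0.le]; exact hpi.ne), Complex.cpow_neg, inv_inv]
    rw [hcA, hcA] at h
    exact h
  · have hv := hFc A A hA0 hA0 (by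
      have hs2 : Real.sqrt (nm q) ^ 2 = nm q := Real.sq_sqrt (by linarith)
      rw [hA]
      field_simp
      rw [hs2])
    have hbe : ∑' I : Ideal R, (starRingEnd ℂ) (ψ I) / (nm I : ℂ) ^ m *
        (Vk m (nm I / A) : ℂ) = ∑' I : Ideal R, ψ I / (nm I : ℂ) ^ m *
        (Vk m (nm I / A) : ℂ) := by
      have hinv : Function.Involutive (bar (R := R)) := a3
      rw [← Equiv.tsum_eq hinv.toPerm (fun I : Ideal R => ψ I / (nm I : ℂ) ^ m *
        (Vk m (nm I / A) : ℂ))]
      refine tsum_congr fun I => ?_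
      show _ = ψ (bar I) / (nm (bar I) : ℂ) ^ m * (Vk m (nm (bar I) / A) : ℂ)
      rw [hCS, a8]
    rw [hbe] at hv
    rw [hv]
    ring

end Pool.Agent.TH936.AW
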