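import Pool.Agent.TH936.AW.Stmts
import Pool.Agent.TH936.HK.Wt

/-!
# Project AW: `B_GC` and `B_VK`
-/

set_option autoImplicit false

open Complex

namespace Pool.Agent.TH936.AW

open Pool.Agent.W192.HK Pool.Agent.TH936.AC
open Pool.Agent.W192.CY (VW Vk)

theorem b_gc (h1 : H_BASIC) (h2 : H_FP) : B_GC := by
  intro R ω hR m hm f ψ hψ
  obtain ⟨-, hbot, hge, hmul, hsp, -, -, -, -⟩ := h1 R ω hR.qr
  obtain ⟨k, rfl⟩ : ∃ k, m = k + 1 := ⟨m - 1, by omega⟩
  have hk : 2 * (k + 1) - 1 = 2 * k + 1 := by omega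
  rw [hk] at hψ
  have hk' : k + 1 - 1 = k := by omega
  rw [hk']
  have hnet : f ≠ ⊤ := by
    intro htop
    have e1 := hψ.princ 1 one_ne_zero (by rw [htop]; trivial)
    have e2 := hψ.princ (-1) (neg_ne_zero.2 one_ne_zero) (by rw [htop]; trivial)
    have e3 : sp (-1 : R) = sp (1 : R) := by
      show Ideal.span {(-1 : R)} = Ideal.span {(1 : R)}
      rw [Ideal.span_singleton_neg]
    rw [e3, e1] at e2
    have e4 : ((1 : R) : ℂ) ^ (2 * k + 1) = 1 := by simp
    have e5 : ((-1 : R) : ℂ) ^ (2 * k + 1) = -1 := by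
      have : ((-1 : R) : ℂ) = -1 := by simp
      rw [this, Odd.neg_one_pow ⟨k, rfl⟩]
    rw [e4, e5] at e2
    norm_num at e2
  obtain ⟨hn, -, -, -, hper⟩ := h2 R ω hR.qr (2 * k + 1) f ψ hψ hnet
  have hnz : ∀ I : Ideal R, I ≠ ⊥ → (nm I : ℂ) ≠ 0 := by
    intro I hI
    have h3 := hge I hI
    have h4 : nm I ≠ 0 := by linarith
    exact_mod_cast h4
  have hg : ∀ a : ℤ, a ≠ 0 → ψ (sp (a : R)) / (nm (sp (a : R)) : ℂ) ^ k =
      fp (2 * k + 1) ψ (a : R) * (a : ℂ) := by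
    intro a ha
    have e1 : nm (sp (a : R)) = (a : ℝ) ^ 2 := by
      rw [hsp]
      have : (((a : R)) : ℂ) = (a : ℂ) := by simp
      rw [this, Complex.normSq_intCast, sq]
    have e2 : (((a : R)) : ℂ) = (a : ℂ) := by simp
    have ha' : (a : ℂ) ≠ 0 := by exact_mod_cast ha
    unfold fp
    rw [e1, e2]
    push_cast
    field_simp
    ring
  refine ⟨hψ.ne, hnet, ?_, ?_, ?_, ?_⟩
  · intro I J
    show ψ (I * J) / (nm (I * J) : ℂ) ^ k = ψ I / (nm I : ℂ) ^ k * (ψ J / (nm J : ℂ) ^ k)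
    rw [hψ.mul, hmul]
    push_cast
    rw [mul_pow, mul_div_mul_comm]
  · intro I
    show ψ I / (nm I : ℂ) ^ k = 0 ↔ _
    rw [← hψ.zero, div_eq_zero_iff]
    constructor
    · rintro (h | h)
      · exact h
      · have h3 := eq_zero_of_pow_eq_zero h
        by_cases hI : I = ⊥
        · exact (hψ.zero I).2 (Or.inl hI)
        · exact absurd h3 (hnz I hI)
    · exact fun h => Or.inl h
  · intro I hI hc
    show ‖ψ I / (nm I : ℂ) ^ k‖ ^ 2 = nm I
    have h3 := hge I hI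
    have h4 : (0 : ℝ) < nm I := by linarith
    rw [norm_div, div_pow, hn I hI hc, norm_pow, Complex.norm_real, Real.norm_of_nonneg h4.le]
    field_simp
    ring
  · intro a b ha hb hab
    show ψ (sp (a : R)) / (nm (sp (a : R)) : ℂ) ^ k * (b : ℂ) =
      ψ (sp (b : R)) / (nm (sp (b : R)) : ℂ) ^ k * (a : ℂ)
    rw [hg a ha, hg b hb, hper (a : R) (b : R) hab]
    ring

theorem b_vk : B_VK := by
  intro m hm
  obtain ⟨C, hC⟩ := Pool.Agent.TH936.HK.h_vk m hm
  refine ⟨C, hC, ?_⟩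
  have hd := Pool.Agent.TH936.HK.hasDerivAt_vk m hm
  refine antitoneOn_of_deriv_nonpos (convex_Ici 0) ?_ ?_ ?_
  · exact fun x _ => (hd x).continuousAt.continuousWithinAt
  · exact fun x _ => (hd x).differentiableAt.differentiableWithinAt
  · intro x hx
    rw [interior_Ici] at hx
    have h3 : deriv (Vk m) x = -(x ^ (m - 1) * Real.exp (-x) / ((m - 1).factorial : ℝ)) :=
      (hd x).deriv
    rw [h3]
    have hx' : (0 : ℝ) < x := hx
    have : (0 : ℝ) ≤ x ^ (m - 1) * Real.exp (-x) / ((m - 1).factorial : ℝ) := by positivity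
    linarith

end Pool.Agent.TH936.AW
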