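import Pool.Agent.TH936.AC.Phi
import Pool.Agent.TH936.AW.Stmts

/-!
# AW-PHI: the coefficients of the small primitive ideals (helper574 for helper936)

Adapted from Pool/Agent/TH936/AC/Phi.lean (helper147).
-/

set_option autoImplicit false

open Complex

namespace Pool.Agent.TH936.AW

open Pool.Agent.W192.HK Pool.Agent.TH936.AC
open Pool.Agent.W192.CY (VW Vk)

/-- PHI with conjugation symmetry: the coefficients of the small primitive ideals -/
def B_PHI' : Prop := ∀ (R : Subring ℂ) (ω : ℂ), QP R ω → ∀ (V : ℝ → ℝ) (CV : ℝ), WV V CV →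
  ∀ (f : Ideal R) (g : Ideal R → ℂ), GC f g → CS g → ∀ c0 C0 : ℝ, 0 < c0 → 0 < C0 →
  ∃ (L0 : ℂ) (q0 : ℝ), L0 ≠ 0 ∧
  ∀ q : ℕ, q.Prime → IsCoprime f (sp (q : R)) → q0 ≤ q → ∀ X : ℝ, c0 * q ≤ X → X ≤ C0 * q →
  ∀ c : Ideal R, Pri c → nm c ≤ (q : ℝ) ^ (1 / 100000 : ℝ) →
    ‖PhV V f ((Real.log q) ^ 200) ((q : ℝ) ^ (1 / 10 : ℝ)) X q g c -
      L0 * (dl f ((Real.log q) ^ 200) c : ℂ)‖ ≤ (q : ℝ) ^ (-1 / 50000 : ℝ)

end Pool.Agent.TH936.AW

namespace Pool.Agent.TH936.AW.Phi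

open Pool.Agent.W192.HK Filter Topology
open Pool.Agent.TH936.AC Pool.Agent.TH936.AC.Phi

section arith
variable {R : Subring ℂ} {f : Ideal R} {g : Ideal R → ℂ}

lemma g_one (hg : GC f g) : g (sp (1 : R)) = 1 := by
  rw [sp_one]
  have h1 := hg.mul ⊤ ⊤
  rw [Ideal.top_mul] at h1
  have h2 : g ⊤ ≠ 0 := by
    intro h
    rcases (hg.zero ⊤).1 h with h3 | h3
    · exact top_ne_bot h3
    · exact h3 (Ideal.isCoprime_iff_sup_eq.2 (top_sup_eq _))
  exact (mul_left_cancel₀ h2 (by rw [← h1, mul_one])).symm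

lemma g_p (h1 : H_BASIC) (h3 : A_BAR) {ω : ℂ} (hR : QP R ω) (hg : GC f g)
    (cs : CS g) {p : ℕ} (hp : p ≠ 0) {P : Ideal R} (hP : IsPP f p P) :
    g (sp (p : R)) = (p : ℂ) := by
  obtain ⟨-, h4, -, h6⟩ := hP
  have hp0 : (p : R) ≠ 0 := by
    intro h
    have h' := congrArg (fun z : R => (z : ℂ)) h
    simp only [Subring.coe_natCast, ZeroMemClass.coe_zero, Nat.cast_eq_zero] at h'
    exact hp h'
  have hsp : sp (p : R) ≠ ⊥ := by
    rw [Ne, Ideal.span_singleton_eq_bot]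
    exact hp0
  have hP0 : P ≠ ⊥ := by
    rintro rfl
    rw [Ideal.bot_mul] at h4
    exact hsp h4.symm
  have hPc : IsCoprime P f := by
    rw [← h4] at h6
    exact h6.of_mul_left_left
  obtain ⟨-, -, -, hmul, hnorm, -⟩ := h1 R ω hR.qr
  obtain ⟨-, -, -, -, -, -, -, hbar, -⟩ := h3 R ω hR
  have h7 := hg.nrm P hP0 hPc
  have h8 : nm P * nm P = (p : ℝ) * p := by
    have := hmul P (bar P)
    rw [hbar, h4, hnorm] at this
    rw [← this]
    simp
  have h9 : nm P = (p : ℝ) := by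
    have hn : 0 ≤ nm P := by unfold nm; positivity
    exact (mul_self_inj hn (Nat.cast_nonneg p)).1 h8
  rw [← h4, hg.mul, cs P, Complex.mul_conj, Complex.normSq_eq_norm_sq, h7, h9]
  simp

lemma g_mc (h1 : H_BASIC) (h3 : A_BAR) {ω : ℂ} (hR : QP R ω) (hg : GC f g)
    (cs : CS g) (y : ℝ) (c : Ideal R) (b : Finset ℕ × Finset ℕ) :
    g (sp ((mc f y c b : ℕ) : R)) = ((mc f y c b : ℕ) : ℂ) := by
  classical
  have key : ∀ s : Finset ℕ, s ⊆ SP f y →
      g (sp ((∏ p ∈ s, mloc f c b p : ℕ) : R)) = ((∏ p ∈ s, mloc f c b p : ℕ) : ℂ) := by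
    intro s
    induction s using Finset.induction_on with
    | empty =>
      intro _
      rw [Finset.prod_empty, Nat.cast_one, Nat.cast_one]
      exact g_one hg
    | insert p s hp ih =>
      intro hs
      rw [Finset.prod_insert hp, Nat.cast_mul, Nat.cast_mul, sp_mul, hg.mul,
        ih fun x hx => hs (Finset.mem_insert_of_mem hx)]
      congr 1
      obtain ⟨h4, ⟨P, hP⟩, -⟩ := mem_SP (hs (Finset.mem_insert_self p s))
      rcases mloc_cases (f := f) c b p with h | h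
      · rw [h]; exact g_p h1 h3 hR hg cs h4.ne_zero hP
      · rw [h, Nat.cast_one, Nat.cast_one]; exact g_one hg
  exact key _ (Finset.Subset.refl _)

end arith

/-! ### the sum over the integers -/

section sums
variable {R : Subring ℂ} {f : Ideal R} {g : Ideal R → ℂ} {V : ℝ → ℝ}

/-- the summand of `B_EPS` -/
noncomputable def us (V : ℝ → ℝ) (g : Ideal R → ℂ) (q : ℕ) (w : ℝ) (m : ℕ) : ℂ :=
  if Nat.Coprime m q then g (sp (m : R)) / (m : ℂ) ^ 2 *
      (V ((m : ℝ) ^ 2 * w) : ℂ) else 0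

/-- the contribution of `b` -/
noncomputable def Tb (V : ℝ → ℝ) (g : Ideal R → ℂ) (q : ℕ) (k : ℕ) (s : ℤ) (v : ℝ) (m : ℕ) : ℂ :=
  if Nat.Coprime m q ∧ k ∣ m then g (sp (m : R)) / (m : ℂ) ^ 2 *
      ((s : ℝ) * V ((m : ℝ) ^ 2 * v) : ℝ) else 0

lemma hasSum_Tb {q k : ℕ} (hk : 0 < k) (hkq : Nat.Coprime k q) (s : ℤ) (v : ℝ)
    (hmul : ∀ I J : Ideal R, g (I * J) = g I * g J)
    (hgk : g (sp (k : R)) = (k : ℂ)) {U : ℂ} (hU : HasSum (us V g q ((k : ℝ) ^ 2 * v)) U) :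
    HasSum (Tb V g q k s v) ((s : ℂ) / (k : ℂ) * U) := by
  have hinj : Function.Injective (fun m' : ℕ => k * m') := fun a b h =>
    Nat.eq_of_mul_eq_mul_left hk h
  rw [← hinj.hasSum_iff]
  · have e : (Tb V g q k s v) ∘ (fun m' : ℕ => k * m') =
        fun m' => (s : ℂ) / (k : ℂ) * us V g q ((k : ℝ) ^ 2 * v) m' := by
      funext m'
      simp only [Function.comp, Tb, us]
      have h1 : (Nat.Coprime (k * m') q ∧ k ∣ k * m') ↔ Nat.Coprime m' q := by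
        rw [Nat.coprime_mul_iff_left]
        exact ⟨fun h => h.1.2, fun h => ⟨⟨hkq, h⟩, Nat.dvd_mul_right _ _⟩⟩
      rw [if_congr h1 rfl rfl]
      split_ifs with h2
      · have hkc : (k : ℂ) ≠ 0 := by exact_mod_cast hk.ne'
        rw [Nat.cast_mul, sp_mul, hmul, hgk]
        have e2 : ((k * m' : ℕ) : ℝ) ^ 2 * v = (m' : ℝ) ^ 2 * ((k : ℝ) ^ 2 * v) := by
          push_cast; ring
        rw [e2]
        push_cast
        by_cases hm : (m' : ℂ) = 0
        · rw [hm]; simp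
        · field_simp
      · ring
    rw [e]
    exact hU.mul_left _
  · intro m hm
    unfold Tb
    rw [if_neg]
    rintro ⟨-, ⟨t, rfl⟩⟩
    exact hm ⟨t, rfl⟩

lemma Ph_eq {y Z X : ℝ} {q : ℕ} {c : Ideal R}
    (hmul : ∀ I J : Ideal R, g (I * J) = g I * g J)
    (hdvd : ∀ b ∈ BB f y Z, ∀ m : ℕ, mB f b ∣ sp (m : R) * c ↔ mc f y c b ∣ m)
    (hcop : ∀ b, Nat.Coprime (mc f y c b) q)
    (hgm : ∀ b, g (sp ((mc f y c b : ℕ) : R)) = ((mc f y c b : ℕ) : ℂ))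
    (hsum : ∀ w : ℝ, 0 < w → Summable (us V g q w)) (hc : 0 < nm c) (hX : 0 < X)
    (hnB : ∀ b ∈ BB f y Z, 0 < nB b) :
    PhV V f y Z X q g c = ∑ b ∈ BB f y Z, (sB b : ℂ) / ((mc f y c b : ℕ) : ℂ) *
      ∑' m, us V g q (((mc f y c b : ℕ) : ℝ) ^ 2 * (nm c / (nB b * X))) m := by
  have h1 : HasSum (fun m => ∑ b ∈ BB f y Z, Tb V g q (mc f y c b) (sB b) (nm c / (nB b * X)) m)
      (∑ b ∈ BB f y Z, (sB b : ℂ) / ((mc f y c b : ℕ) : ℂ) *
      ∑' m, us V g q (((mc f y c b : ℕ) : ℝ) ^ 2 * (nm c / (nB b * X))) m) := by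
    refine hasSum_sum fun b hb => ?_
    refine hasSum_Tb (mc_pos y c b) (hcop b) _ _ hmul (hgm b) ?_
    refine (hsum _ ?_).hasSum
    have h2 : (0 : ℝ) < ((mc f y c b : ℕ) : ℝ) := by exact_mod_cast mc_pos y c b
    have h3 : (0 : ℝ) < nB b := by exact_mod_cast hnB b hb
    positivity
  rw [← h1.tsum_eq]
  unfold PhV
  refine tsum_congr fun m => ?_
  split_ifs with h2
  · unfold lamV
    rw [Complex.ofReal_sum, Finset.mul_sum]
    refine Finset.sum_congr rfl fun b hb => ?_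
    unfold Tb
    by_cases h3 : mc f y c b ∣ m
    · rw [if_pos ((hdvd b hb m).2 h3), if_pos ⟨h2, h3⟩, mul_div_assoc]
    · rw [if_neg (fun h => h3 ((hdvd b hb m).1 h)), if_neg (fun h => h3 h.2)]
      simp
  · symm
    refine Finset.sum_eq_zero fun b _ => ?_
    unfold Tb
    rw [if_neg (fun h => h2 h.1)]

end sums

end Pool.Agent.TH936.AW.Phi

namespace Pool.Agent.TH936.AW

open Pool.Agent.W192.HK Pool.Agent.TH936.AC
open Pool.Agent.TH936.AC.Phi (mc_pos mc_coprime numeric mem_BB primes_of nB_pos card_BB)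
open Pool.Agent.TH936.AW.Phi

theorem b_phi' (h1 : H_BASIC) (h3 : A_BAR) (h4 : B_EPS) (h5 : A_PROD) (h6 : A_RANK) :
    B_PHI' := by
  classical
  intro R ω hR V CV hV f g hg cs c0 C0 hc0 hC0
  obtain ⟨L0, C, hL0, hC, hU⟩ := h4 R ω hR V CV hV f g hg
  obtain ⟨q0, hq0⟩ := numeric ‖L0‖ C c0 hc0 (norm_nonneg _)
  refine ⟨L0, q0, hL0, ?_⟩
  intro q hq hfq hqq0 X hX1 hX2 c hc hcn
  obtain ⟨n1, n2, n3, n4, n5⟩ := hq0 q hqq0
  set y : ℝ := (Real.log q) ^ 200 with hy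
  set Z : ℝ := (q : ℝ) ^ (1 / 10 : ℝ) with hZ
  obtain ⟨-, -, hnorm1, -, -, -⟩ := h1 R ω hR.qr
  have hX : 0 < X := lt_of_lt_of_le (by positivity) hX1
  have hnc : 1 ≤ nm c := hnorm1 c hc.1
  have hnc0 : 0 < nm c := by linarith
  obtain ⟨-, -, hP⟩ := h5 R ω hR f y hg.ne
  obtain ⟨hPd, hPs⟩ := hP c hc
  have hyq : ⌊y⌋₊ < q := by
    rw [Nat.floor_lt (by linarith)]
    exact n2
  have hsum : ∀ w : ℝ, 0 < w → Summable (us V g q w) ∧
      ‖∑' m, us V g q w m - L0‖ ≤ C * (Real.sqrt w + 1 / q) := fun w hw => hU q hq hfq w hw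
  have hPh := Ph_eq (V := V) (g := g) (f := f) (y := y) (Z := Z) (X := X) (q := q) (c := c) hg.mul
    (fun b hb m => (hPd b (mem_BB.1 hb).1).1 m) (fun b => mc_coprime hq hyq c b)
    (fun b => g_mc h1 h3 hR hg cs y c b) (fun w hw => (hsum w hw).1) hnc0 hX
    (fun b hb => nB_pos (mem_BB.1 hb).1)
  have hdl : dl f y c = ∑ b ∈ BB f y Z, (sB b : ℝ) / mc f y c b +
      ∑ b ∈ ((SP f y).powerset ×ˢ (SP f y).powerset).filter (fun b => ¬ ((nB b : ℝ) ≤ Z)),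
        (sB b : ℝ) / mc f y c b := by
    rw [← hPs, ← Finset.sum_filter_add_sum_filter_not _ (fun b => (nB b : ℝ) ≤ Z)]
    congr 1
  have hsB : ∀ b, ‖(sB b : ℂ)‖ = 1 := by
    intro b
    unfold sB
    push_cast
    rw [norm_pow, norm_neg, norm_one, one_pow]
  have hmc1 : ∀ b, (1 : ℝ) ≤ mc f y c b := fun b => by
    exact_mod_cast (mc_pos (f := f) y c b)
  -- the two parts
  have hdec : PhV V f y Z X q g c - L0 * (dl f y c : ℂ) =
      ∑ b ∈ BB f y Z, (sB b : ℂ) / ((mc f y c b : ℕ) : ℂ) *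
        (∑' m, us V g q (((mc f y c b : ℕ) : ℝ) ^ 2 * (nm c / (nB b * X))) m - L0) -
      L0 * ∑ b ∈ ((SP f y).powerset ×ˢ (SP f y).powerset).filter (fun b => ¬ ((nB b : ℝ) ≤ Z)),
        (sB b : ℂ) / ((mc f y c b : ℕ) : ℂ) := by
    rw [hPh, hdl]
    push_cast
    simp only [mul_sub, Finset.sum_sub_distrib, mul_add, Finset.mul_sum]
    rw [sub_sub]
    congr 2
    exact Finset.sum_congr rfl fun _ _ => mul_comm _ _
  rw [hdec]
  have hA : ‖∑ b ∈ BB f y Z, (sB b : ℂ) / ((mc f y c b : ℕ) : ℂ) *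
        (∑' m, us V g q (((mc f y c b : ℕ) : ℝ) ^ 2 * (nm c / (nB b * X))) m - L0)‖ ≤
      Z ^ 2 * (C * (√((q : ℝ) ^ (1 / 100000 : ℝ) / (c0 * q)) + 1 / q)) := by
    have hB : ∀ b ∈ BB f y Z, ‖(sB b : ℂ) / ((mc f y c b : ℕ) : ℂ) *
        (∑' m, us V g q (((mc f y c b : ℕ) : ℝ) ^ 2 * (nm c / (nB b * X))) m - L0)‖ ≤
        C * (√((q : ℝ) ^ (1 / 100000 : ℝ) / (c0 * q)) + 1 / q) := by
      intro b hb
      have hnB : (1 : ℝ) ≤ nB b := by exact_mod_cast nB_pos (mem_BB.1 hb).1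
      have hm := hmc1 b
      have hm0 : (0 : ℝ) < mc f y c b := by linarith
      have hw : 0 < ((mc f y c b : ℕ) : ℝ) ^ 2 * (nm c / (nB b * X)) := by positivity
      have hv : nm c / (nB b * X) ≤ (q : ℝ) ^ (1 / 100000 : ℝ) / (c0 * q) := by
        have : c0 * q ≤ nB b * X := by nlinarith
        gcongr
      have h7 := (hsum _ hw).2
      rw [norm_mul, norm_div, hsB, Complex.norm_natCast]
      have h8 : √(((mc f y c b : ℕ) : ℝ) ^ 2 * (nm c / (nB b * X))) ≤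
          ((mc f y c b : ℕ) : ℝ) * √((q : ℝ) ^ (1 / 100000 : ℝ) / (c0 * q)) := by
        rw [Real.sqrt_mul (by positivity), Real.sqrt_sq hm0.le]
        gcongr
      calc 1 / ((mc f y c b : ℕ) : ℝ) *
            ‖∑' m, us V g q (((mc f y c b : ℕ) : ℝ) ^ 2 * (nm c / (nB b * X))) m - L0‖
          ≤ 1 / ((mc f y c b : ℕ) : ℝ) * (C * (((mc f y c b : ℕ) : ℝ) *
            √((q : ℝ) ^ (1 / 100000 : ℝ) / (c0 * q)) +
              ((mc f y c b : ℕ) : ℝ) * (1 / q))) := by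
            refine mul_le_mul_of_nonneg_left (h7.trans ?_) (by positivity)
            have h9 : 1 / (q : ℝ) ≤ ((mc f y c b : ℕ) : ℝ) * (1 / q) :=
              le_mul_of_one_le_left (by positivity) hm
            exact mul_le_mul_of_nonneg_left (add_le_add h8 h9) hC.le
        _ = _ := by
            field_simp
    calc _ ≤ ∑ b ∈ BB f y Z, C * (√((q : ℝ) ^ (1 / 100000 : ℝ) / (c0 * q)) + 1 / q) :=
          (norm_sum_le _ _).trans (Finset.sum_le_sum hB)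
      _ = (BB f y Z).card * (C * (√((q : ℝ) ^ (1 / 100000 : ℝ) / (c0 * q)) + 1 / q)) := by
          rw [Finset.sum_const, nsmul_eq_mul]
      _ ≤ _ := by
          have := card_BB (f := f) y Z (by linarith)
          gcongr
  have hD : ‖L0 * ∑ b ∈ ((SP f y).powerset ×ˢ (SP f y).powerset).filter
        (fun b => ¬ ((nB b : ℝ) ≤ Z)), (sB b : ℂ) / ((mc f y c b : ℕ) : ℂ)‖ ≤
      ‖L0‖ * ((q : ℝ) ^ (1 / 100000 : ℝ) * (Z ^ (-(1 / 1600) : ℝ) *
        Real.exp (3 * (1 + y ^ (2 * (1 / 1600) : ℝ) / (2 * (1 / 1600)))))) := by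
    rw [norm_mul]
    refine mul_le_mul_of_nonneg_left ?_ (norm_nonneg _)
    have h7 := h6 R f y Z (1 / 1600) n3 n4 (by norm_num) (by norm_num)
    calc _ ≤ ∑ b ∈ ((SP f y).powerset ×ˢ (SP f y).powerset).filter
          (fun b => ¬ ((nB b : ℝ) ≤ Z)), nm c * (1 / (∏ p ∈ b.1 ∪ b.2, (p : ℝ))) := by
          refine (norm_sum_le _ _).trans (Finset.sum_le_sum fun b hb => ?_)
          have hb1 := (Finset.mem_filter.1 hb).1
          have h8 := (hPd b hb1).2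
          rw [norm_div, hsB, Complex.norm_natCast]
          have h9 : 0 < ∏ p ∈ b.1 ∪ b.2, (p : ℝ) := by
            refine Finset.prod_pos fun p hp => ?_
            rcases Finset.mem_union.1 hp with h | h
            · exact_mod_cast ((primes_of hb1).1 p h).pos
            · exact_mod_cast ((primes_of hb1).2 p h).pos
          have hm0 : (0 : ℝ) < mc f y c b := by linarith [hmc1 b]
          rw [mul_one_div, div_le_div_iff₀ hm0 h9, one_mul, mul_comm (nm c)]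
          exact h8
      _ = nm c * ∑ b ∈ ((SP f y).powerset ×ˢ (SP f y).powerset).filter
          (fun b => ¬ ((nB b : ℝ) ≤ Z)), 1 / (∏ p ∈ b.1 ∪ b.2, (p : ℝ)) := by
          rw [Finset.mul_sum]
      _ ≤ _ := by
          refine mul_le_mul hcn ?_ ?_ (by positivity)
          · convert h7 using 2
          · refine Finset.sum_nonneg fun b _ => ?_
            positivity
  calc _ ≤ _ := norm_sub_le _ _
    _ ≤ _ := add_le_add hA hD
    _ ≤ _ := n5

theorem b_phi (h1 : H_BASIC) (h3 : A_BAR) (h4 : B_EPS) (h5 : A_PROD) (h6 : A_RANK) :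
    B_PHI := b_phi' h1 h3 h4 h5 h6

/-- conjugation symmetry of `ψ(I) / N(I) ^ k` -/
theorem cs_div (h3 : A_BAR) {R : Subring ℂ} {ω : ℂ} (hR : QP R ω) {ψ : Ideal R → ℂ}
    (cs : CS ψ) (k : ℕ) : CS (fun I => ψ I / (nm I : ℂ) ^ k) := by
  obtain ⟨-, -, -, -, -, -, -, hbar, -⟩ := h3 R ω hR
  intro I
  change ψ (bar I) / (nm (bar I) : ℂ) ^ k = (starRingEnd ℂ) (ψ I / (nm I : ℂ) ^ k)
  rw [hbar, cs I, map_div₀, map_pow, Complex.conj_ofReal]

end Pool.Agent.TH936.AW
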