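import Pool.Agent.TH936.AW.Stmts
import Pool.Agent.TH936.AC.Phi2

/-!
# PHI2: bound for the coefficients of all primitive ideals (all odd weights)
-/

set_option autoImplicit false

open Complex

namespace Pool.Agent.TH936.AW

open Pool.Agent.W192.HK Pool.Agent.TH936.AC
open Pool.Agent.W192.CY (VW Vk)

namespace Phi2

variable {R : Subring ℂ}

theorem norm_g {ω : ℂ} (h1 : H_BASIC) (hR : QP R ω) {f : Ideal R}
    {g : Ideal R → ℂ} (h : GC f g) {m : ℕ} (hm : 1 ≤ m) : ‖g (sp (m : R))‖ ≤ m := by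
  obtain ⟨-, b2, b3, b4, b5, -⟩ := h1 R ω hR.qr
  have hnm : nm (sp (m : R)) = (m : ℝ) ^ 2 := by
    rw [b5]
    simp [Complex.normSq_natCast, sq]
  have hne : sp (m : R) ≠ ⊥ := by
    intro h0
    rw [h0, b2] at hnm
    have : (0 : ℝ) < m := by exact_mod_cast hm
    have : (0 : ℝ) < (m : ℝ) ^ 2 := by positivity
    linarith
  by_cases hc : IsCoprime (sp (m : R)) f
  · have e := h.nrm _ hne hc
    rw [hnm] at e
    have hm0 : (0 : ℝ) ≤ m := Nat.cast_nonneg m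
    exact le_of_eq ((pow_left_inj₀ (norm_nonneg _) hm0 two_ne_zero).1 e)
  · rw [(h.zero _).2 (Or.inr hc), norm_zero]
    exact Nat.cast_nonneg m

theorem lamV_le {ω : ℂ} (h1 : H_BASIC) (h5 : A_PROD) (hR : QP R ω) {f : Ideal R} (hf : f ≠ ⊥)
    {V : ℝ → ℝ} {CV : ℝ} (hV : VW V CV)
    {C1 η : ℝ} (hD : ∀ I : Ideal R, I ≠ ⊥ → {J : Ideal R | J ∣ I}.Finite ∧
      (Set.ncard {J : Ideal R | J ∣ I} : ℝ) ≤ C1 * (nm I) ^ η) (y Z X : ℝ) (hX : 1 ≤ X)
    {c : Ideal R} (hc : c ≠ ⊥) {m : ℕ} (hm : 1 ≤ m) :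
    |lamV V f y Z X m c| ≤
      CV * (C1 * ((m : ℝ) ^ 2 * nm c) ^ η * Real.exp (-((m : ℝ) ^ 2 * nm c / (2 * (Z * X))))) := by
  classical
  obtain ⟨-, b2, b3, b4, b5, -⟩ := h1 R ω hR.qr
  have hm0 : (0 : ℝ) < m := by exact_mod_cast hm
  have hCV : 0 < CV := hV.pos
  have hN : 1 ≤ nm c := b3 c hc
  have hnm : nm (sp (m : R) * c) = (m : ℝ) ^ 2 * nm c := by
    rw [b4, b5]
    congr 1
    simp [Complex.normSq_natCast, sq]
  have hpos : 0 < (m : ℝ) ^ 2 * nm c := by positivity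
  have hne : sp (m : R) * c ≠ ⊥ := by
    intro h0
    rw [h0, b2] at hnm
    linarith
  obtain ⟨hfin, hcard⟩ := hD _ hne
  rw [hnm] at hcard
  obtain ⟨-, hinj, -⟩ := h5 R ω hR f y hf
  set B : Finset (Finset ℕ × Finset ℕ) := (BB f y Z).filter (fun b => mB f b ∣ sp (m : R) * c)
    with hB
  have hBB : ∀ b ∈ BB f y Z, b ∈ (SP f y).powerset ×ˢ (SP f y).powerset ∧ (nB b : ℝ) ≤ Z := by
    intro b hb
    unfold BB at hb
    exact Finset.mem_filter.1 hb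
  have hBcard : (B.card : ℝ) ≤ C1 * ((m : ℝ) ^ 2 * nm c) ^ η := by
    refine le_trans ?_ hcard
    have h := Set.ncard_le_ncard_of_injOn (s := (B : Set (Finset ℕ × Finset ℕ)))
      (t := {J : Ideal R | J ∣ sp (m : R) * c}) (mB f)
      (fun b hb => (Finset.mem_filter.1 (Finset.mem_coe.1 hb)).2)
      (fun b hb b' hb' he => hinj b (hBB b (Finset.mem_filter.1 (Finset.mem_coe.1 hb)).1).1 b'
        (hBB b' (Finset.mem_filter.1 (Finset.mem_coe.1 hb')).1).1 he) hfin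
    rw [Set.ncard_coe_finset] at h
    exact_mod_cast h
  have hsum : lamV V f y Z X m c =
      ∑ b ∈ B, (sB b : ℝ) * V ((m : ℝ) ^ 2 * nm c / (nB b * X)) := by
    unfold lamV
    rw [hB, Finset.sum_filter]
  have hterm : ∀ b ∈ B, |(sB b : ℝ) * V ((m : ℝ) ^ 2 * nm c / (nB b * X))| ≤
      CV * Real.exp (-((m : ℝ) ^ 2 * nm c / (2 * (Z * X)))) := by
    intro b hb
    obtain ⟨hb1, hb2⟩ := hBB b (Finset.mem_filter.1 hb).1
    have hnb : (1 : ℝ) ≤ nB b := by exact_mod_cast AC.Phi2.one_le_nB hb1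
    have h0 : (0 : ℝ) < nB b * X := by positivity
    rw [abs_mul, AC.Phi2.abs_sB, one_mul]
    refine (hV.dec _ (by positivity)).trans ?_
    refine mul_le_mul_of_nonneg_left ?_ hCV.le
    refine Real.exp_le_exp.2 (neg_le_neg ?_)
    rw [div_div]
    refine div_le_div_of_nonneg_left hpos.le (by positivity) ?_
    have : (nB b : ℝ) * X ≤ Z * X := mul_le_mul_of_nonneg_right hb2 (by linarith)
    linarith
  calc |lamV V f y Z X m c|
      ≤ ∑ b ∈ B, |(sB b : ℝ) * V ((m : ℝ) ^ 2 * nm c / (nB b * X))| := by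
        rw [hsum]
        exact Finset.abs_sum_le_sum_abs _ _
    _ ≤ ∑ _b ∈ B, CV * Real.exp (-((m : ℝ) ^ 2 * nm c / (2 * (Z * X)))) := Finset.sum_le_sum hterm
    _ = CV * ((B.card : ℝ) * Real.exp (-((m : ℝ) ^ 2 * nm c / (2 * (Z * X))))) := by
        rw [Finset.sum_const, nsmul_eq_mul]
        ring
    _ ≤ CV * (C1 * ((m : ℝ) ^ 2 * nm c) ^ η *
          Real.exp (-((m : ℝ) ^ 2 * nm c / (2 * (Z * X))))) :=
        mul_le_mul_of_nonneg_left (mul_le_mul_of_nonneg_right hBcard (Real.exp_pos _).le) hCV.le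

end Phi2

theorem b_phi2 (h1 : H_BASIC) (h3 : H_DIVR) (_h4 : A_BAR) (h5 : A_PROD) : B_PHI2 := by
  intro R ω hR V CV hV f g hg η hη
  have hCV : 0 < CV := hV.pos
  obtain ⟨C1, hC1, hD⟩ := h3 R ω hR.qr η hη
  have hsum : Summable fun m : ℕ => 1 / (m : ℝ) ^ (1 + 2 * η) :=
    Real.summable_one_div_nat_rpow.2 (by linarith)
  set S : ℝ := ∑' m : ℕ, 1 / (m : ℝ) ^ (1 + 2 * η) with hS
  have hS0 : 0 ≤ S := tsum_nonneg fun m => by positivity
  refine ⟨CV * (C1 * (2 * η) ^ (2 * η) * (2 : ℝ) ^ (2 * η) * (2 : ℝ) ^ (2 * η)) * S + 1,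
    by positivity, fun y Z X q _hq hZ hX c hc => ?_⟩
  obtain ⟨-, b2, b3, -⟩ := h1 R ω hR.qr
  have hN : 1 ≤ nm c := b3 c hc.1
  have hW0 : 1 ≤ Z * X := one_le_mul_of_one_le_of_one_le hZ hX
  have hW : 1 ≤ 2 * (Z * X) := by linarith
  set B : ℝ := CV * (C1 * (2 * η) ^ (2 * η) * (2 : ℝ) ^ (2 * η) * (2 * (Z * X)) ^ (2 * η) *
    (nm c) ^ η * Real.exp (-(nm c / (2 * (2 * (Z * X)))))) with hB
  have hterm : ∀ m : ℕ, ‖(if Nat.Coprime m q then g (sp (m : R)) / (m : ℂ) ^ 2 *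
      (lamV V f y Z X m c : ℂ) else 0)‖ ≤ B * (1 / (m : ℝ) ^ (1 + 2 * η)) := by
    intro m
    have hB0 : 0 ≤ B * (1 / (m : ℝ) ^ (1 + 2 * η)) := by positivity
    split_ifs with hmq
    · rcases Nat.eq_zero_or_pos m with h0 | h0
      · subst h0
        simpa using hB0
      · have hm0 : (0 : ℝ) < m := by exact_mod_cast h0
        have e3 := mul_le_mul_of_nonneg_left (AC.Phi2.real_bound hC1 hη hW hN h0) hCV.le
        have e4 : CV * (C1 * (2 * η) ^ (2 * η) * (2 : ℝ) ^ (2 * η) * (2 * (Z * X)) ^ (2 * η) *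
            (nm c) ^ η * Real.exp (-(nm c / (2 * (2 * (Z * X))))) *
            (1 / (m : ℝ) ^ (1 + 2 * η))) = B * (1 / (m : ℝ) ^ (1 + 2 * η)) := by
          rw [hB]; ring
        rw [e4] at e3
        refine le_trans ?_ e3
        rw [norm_mul, norm_div, norm_pow, Complex.norm_natCast, Complex.norm_real, Real.norm_eq_abs]
        have e1 := Phi2.norm_g h1 hR hg h0
        have e2 := Phi2.lamV_le h1 h5 hR hg.ne hV hD y Z X hX hc.1 h0
        have e5 : ‖g (sp (m : R))‖ / (m : ℝ) ^ 2 ≤ 1 / (m : ℝ) := by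
          rw [div_le_div_iff₀ (by positivity) hm0]
          nlinarith
        calc ‖g (sp (m : R))‖ / (m : ℝ) ^ 2 * |lamV V f y Z X m c|
            ≤ 1 / (m : ℝ) * (CV * (C1 * ((m : ℝ) ^ 2 * nm c) ^ η *
                Real.exp (-((m : ℝ) ^ 2 * nm c / (2 * (Z * X)))))) :=
              mul_le_mul e5 e2 (abs_nonneg _) (by positivity)
          _ = CV * (1 / (m : ℝ) * (C1 * ((m : ℝ) ^ 2 * nm c) ^ η *
                Real.exp (-((m : ℝ) ^ 2 * nm c / (2 * (Z * X)))))) := by ring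
    · rw [norm_zero]
      exact hB0
  have hfin := tsum_of_norm_bounded (hsum.hasSum.mul_left B) hterm
  have hPh : ‖PhV V f y Z X q g c‖ ≤ B * S := hfin
  refine hPh.trans ?_
  have hT : 0 ≤ (Z * X) ^ (2 * η) * (nm c) ^ η * Real.exp (-(nm c / (4 * (Z * X)))) := by
    positivity
  have h2W : (2 * (Z * X)) ^ (2 * η) = (2 : ℝ) ^ (2 * η) * (Z * X) ^ (2 * η) :=
    Real.mul_rpow (by norm_num) (by linarith)
  have h4 : 2 * (2 * (Z * X)) = 4 * (Z * X) := by ring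
  calc B * S = CV * (C1 * (2 * η) ^ (2 * η) * (2 : ℝ) ^ (2 * η) * (2 : ℝ) ^ (2 * η)) * S *
        ((Z * X) ^ (2 * η) * (nm c) ^ η * Real.exp (-(nm c / (4 * (Z * X))))) := by
        rw [hB, h2W, h4]; ring
    _ ≤ (CV * (C1 * (2 * η) ^ (2 * η) * (2 : ℝ) ^ (2 * η) * (2 : ℝ) ^ (2 * η)) * S + 1) *
        ((Z * X) ^ (2 * η) * (nm c) ^ η * Real.exp (-(nm c / (4 * (Z * X))))) :=
        mul_le_mul_of_nonneg_right (by linarith) hT
    _ = _ := by ring

end Pool.Agent.TH936.AW
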