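import Pool.Agent.TH936.AC.Ram
import Pool.Agent.TH936.AW.Stmts

/-!
# Project AW, part RAM: the ramified primes divide the conductor, infinity type `(2 m - 1, 0)`

Adapted from the file `AC/Ram.lean` of helper329: if a ramified prime `P` does not divide `f`, there
is a prime number `l ≡ -1` modulo the norm of `f` which is a norm from `R`; then
`0 ≤ ψ((l)) / l ^ (2 m - 1) = ψ((-1)) / (-1) ^ (2 m - 1) = -1`.
-/

set_option autoImplicit false

open Complex

namespace Pool.Agent.TH936.AW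

open Pool.Agent.W192.HK Pool.Agent.TH936.AC

theorem b_ram (h1 : H_BASIC) (h2 : H_FP) (h3 : A_BAR) : B_RAM := by
  intro R ω hR m hm f ψ hψ hcs P hP hP0 hbar
  have h := hR.qr
  obtain ⟨b1, b2, b3, b4, b5, b6, b7, b8, b9⟩ := h1 R ω h
  obtain ⟨c1, c2, c3, c4, c5, c6, c7, c8, c9, c10, c11, c12, c13, c14⟩ := h3 R ω hR
  have hpid := hR.pid
  have hded := h.ded
  have hft : f ≠ ⊤ := HC.ne_top (m := m) hm hψ
  by_contra hcon
  push Not at hcon
  obtain ⟨hnp, hcop⟩ := hcon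
  obtain ⟨t, s, ht, hs⟩ := AC.Ram.exists_ts h
  -- the prime number below `P`
  set nP : ℕ := Nat.card (R ⧸ P) with hnP
  have hPP : P * P = sp ((nP : ℕ) : R) := by
    have := c9 P hP0
    rwa [hbar] at this
  have hnmP : nm P = nP := rfl
  have hnP0 : nP ≠ 0 := by
    have := b3 P hP0
    rw [hnmP] at this
    rintro h0
    rw [h0] at this
    norm_num at this
  have hnP1 : nP ≠ 1 := by
    intro h0
    exact hP.ne_top ((b7 P).1 (by rw [hnmP, h0]; simp))
  have hmemP : ((nP : ℕ) : R) ∈ P := by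
    have : ((nP : ℕ) : R) ∈ P * P := by
      rw [hPP]
      exact Ideal.mem_span_singleton_self _
    exact Ideal.mul_le_right this
  obtain ⟨p, hp, hpP⟩ := AC.Ram.exists_prime_mem hP nP hnP0 hmemP
  have hPp : P ∣ sp (p : R) := Ideal.dvd_span_singleton.2 hpP
  have hnmp : nm (sp (p : R)) = (p : ℝ) ^ 2 := by
    rw [b5]
    simp [Complex.normSq_natCast, sq]
  obtain ⟨J, hJ⟩ := hPp
  have hmulJ : p ^ 2 = nP * Nat.card (R ⧸ J) := by
    have h4 := b4 P J
    rw [← hJ, hnmp, hnmP] at h4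
    have h5 : nm J = (Nat.card (R ⧸ J) : ℝ) := rfl
    rw [h5] at h4
    exact_mod_cast h4
  have hnPp : nP = p := by
    obtain ⟨i, hi, hni⟩ := (Nat.dvd_prime_pow hp).1 (⟨_, hmulJ⟩ : nP ∣ p ^ 2)
    interval_cases i
    · exact absurd (by rw [hni, pow_zero]) hnP1
    · rw [hni, pow_one]
    · exfalso
      rw [hni] at hmulJ
      have h5 : Nat.card (R ⧸ J) = 1 := by
        have h6 : p ^ 2 * Nat.card (R ⧸ J) = p ^ 2 * 1 := by rw [mul_one]; exact hmulJ.symm
        exact Nat.eq_of_mul_eq_mul_left (pow_pos hp.pos 2) h6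
      have h7 : J = ⊤ := (b7 J).1 (by
        have h8 : nm J = (Nat.card (R ⧸ J) : ℝ) := rfl
        rw [h8, h5]
        simp)
      rw [h7, Ideal.mul_top] at hJ
      exact hnp p hp hJ.symm
  obtain ⟨π, hπ⟩ : ∃ π : R, P = sp π := ⟨_, (Ideal.span_singleton_generator P).symm⟩
  have hnπ : Complex.normSq (π : ℂ) = p := by
    rw [← b5, ← hπ, hnmP, hnPp]
  obtain ⟨hDle, x, y, hxy, hN, hpy⟩ := AC.Ram.D_le ht hs hp h hnπ
  set D : ℤ := 4 * s - t ^ 2 with hD
  have hDpos : 0 < D := by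
    have h4 : (0 : ℝ) < ((4 * s - t ^ 2 : ℤ) : ℝ) := by
      push_cast
      rw [ht, hs]
      have := h.im
      nlinarith
    exact_mod_cast h4
  -- `p` divides `D`
  have hpD : (p : ℤ) ∣ D := by
    obtain ⟨πb, hπb⟩ := c1 π
    have h4 : bar P = sp πb := by
      rw [hπ]
      exact c6 π πb hπb
    have h5 : π - πb ∈ P := by
      refine Ideal.sub_mem _ ?_ ?_
      · rw [hπ]
        exact Ideal.mem_span_singleton_self _
      · rw [← hbar, h4]
        exact Ideal.mem_span_singleton_self _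
    obtain ⟨J', hJ'⟩ := (Ideal.dvd_span_singleton.2 h5 : P ∣ sp (π - πb))
    have h6 := b4 P J'
    have h6' : nm J' = (Nat.card (R ⧸ J') : ℝ) := rfl
    rw [← hJ', b5, hnmP, hnPp, h6'] at h6
    have h7 : ((π - πb : R) : ℂ) = ((-(t * y) : ℤ) : ℂ) + ((2 * y : ℤ) : ℂ) * ω := by
      push_cast
      rw [hπb, hxy]
      apply Complex.ext
      · simp
        rw [ht]
        ring
      · simp
        ring
    rw [h7, AC.Ram.normSq_eq ht hs] at h6
    have h8 : y ^ 2 * D = (p : ℤ) * (Nat.card (R ⧸ J') : ℤ) := by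
      have h9 : (-(t * y)) ^ 2 + t * (-(t * y)) * (2 * y) + s * (2 * y) ^ 2 =
        (p : ℤ) * (Nat.card (R ⧸ J') : ℤ) := by exact_mod_cast h6
      rw [← h9, hD]
      ring
    have h10 : (p : ℤ) ∣ y ^ 2 * D := ⟨_, h8⟩
    rcases (Nat.prime_iff_prime_int.1 hp).dvd_or_dvd h10 with h11 | h11
    · exact absurd ((Nat.prime_iff_prime_int.1 hp).dvd_of_dvd_pow h11) hpy
    · exact h11
  have hD4 : (2 : ℤ) ∣ D → t % 2 = 0 := by
    intro h3
    rcases Int.emod_two_eq_zero_or_one t with h4 | h4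
    · exact h4
    · exfalso
      obtain ⟨u, hu⟩ : ∃ u, t = 2 * u + 1 := ⟨t / 2, by omega⟩
      have : D = 4 * (s - u ^ 2 - u) - 1 := by rw [hD, hu]; ring
      omega
  have hcase2 : (2 : ℤ) ∣ D → D ≤ 8 := by
    intro h4
    have ht2 : t % 2 = 0 := hD4 h4
    obtain ⟨u, hu⟩ := Int.dvd_of_emod_eq_zero ht2
    have h5 : ((2 : ℕ) : ℤ) ∣ s ^ 2 - t * s + s := by
      have h6 : s ^ 2 - t * s + s = s * (s + 1) - 2 * (u * s) := by rw [hu]; ring
      rw [h6]
      have h7 : (2 : ℤ) ∣ s * (s + 1) := (Int.even_mul_succ_self s).two_dvd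
      exact dvd_sub h7 (dvd_mul_right _ _)
    obtain ⟨β, hβ⟩ := AC.Ram.exists_norm ht hs h1 h3 hR Nat.prime_two h5
    have h6 := (AC.Ram.D_le ht hs Nat.prime_two h hβ).1
    push_cast at h6
    omega
  have hcase3 : (3 : ℤ) ∣ D → D ≤ 12 := by
    intro h4
    have h5 : ((3 : ℕ) : ℤ) ∣ (2 * t) ^ 2 - t * (2 * t) + s := by
      have h6 : (2 * t) ^ 2 - t * (2 * t) + s = D + 3 * (t ^ 2 - s) := by rw [hD]; ring
      rw [h6]
      exact dvd_add h4 (dvd_mul_right _ _)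
    obtain ⟨β, hβ⟩ := AC.Ram.exists_norm ht hs h1 h3 hR Nat.prime_three h5
    have h6 := (AC.Ram.D_le ht hs Nat.prime_three h hβ).1
    push_cast at h6
    omega
  have hfinal : (p % 4 = 3 ∧ D = p) ∨ (p = 2 ∧ (D = 4 ∨ D = 8)) :=
    AC.Ram.disc_cases hD hp hDpos hDle hpD hcase2 hcase3
  -- the norm of `f`
  set n0 : ℕ := Nat.card (R ⧸ f) with hn0
  have hff : f * bar f = sp ((n0 : ℕ) : R) := c9 f hψ.ne
  have hn00 : n0 ≠ 0 := by
    have h4 := b3 f hψ.ne
    have h5 : nm f = (n0 : ℝ) := rfl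
    rw [h5] at h4
    rintro h0
    rw [h0] at h4
    norm_num at h4
  have hn0f : ((n0 : ℕ) : R) ∈ f := by
    have h4 : ((n0 : ℕ) : R) ∈ f * bar f := by
      rw [hff]
      exact Ideal.mem_span_singleton_self _
    exact (Ideal.mul_le_left : f * bar f ≤ f) h4
  have hpn0 : Nat.Coprime n0 p := by
    refine Nat.Coprime.symm ((Nat.Prime.coprime_iff_not_dvd hp).2 fun h4 => ?_)
    have h5 : (p : R) ∣ ((n0 : ℕ) : R) := by
      obtain ⟨u, hu⟩ := h4
      exact ⟨(u : R), by rw [hu]; push_cast; ring⟩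
    have h6 : P ∣ f * bar f := by
      rw [hff]
      refine Ideal.dvd_span_singleton.2 ?_
      obtain ⟨u, hu⟩ := h5
      rw [hu]
      exact Ideal.mul_mem_right _ _ hpP
    have h7 : P ∣ f := by
      rcases (Ideal.prime_of_isPrime hP0 hP).dvd_or_dvd h6 with h8 | h8
      · exact h8
      · rw [← hbar] at h8
        exact (c13 P f).1 h8
    have h8 := Ideal.isCoprime_iff_sup_eq.1 hcop
    rw [sup_eq_left.2 (Ideal.le_of_dvd h7)] at h8
    exact hP.ne_top h8
  -- a prime number `l ≡ -1 mod n0` with `-D` a square modulo `l`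
  obtain ⟨l, hl, hl2, hln0, hlsq⟩ := AC.Ram.exists_l hp hn00 hpn0 hfinal
  obtain ⟨x0, hx0⟩ := AC.Ram.exists_root hl hl2 (t := t) (s := s) hlsq
  obtain ⟨β, hβ⟩ := AC.Ram.exists_norm ht hs h1 h3 hR hl hx0
  -- the contradiction
  obtain ⟨-, -, -, -, f5⟩ := h2 R ω h (2 * m - 1) f ψ hψ hft
  have hmem : (l : R) - (-1) ∈ f := by
    obtain ⟨u, hu⟩ := hln0
    have h4 : (l : R) - (-1) = ((n0 : ℕ) : R) * (u : R) := by
      rw [sub_neg_eq_add, ← Nat.cast_mul, ← hu]
      push_cast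
      ring
    rw [h4]
    exact Ideal.mul_mem_right _ _ hn0f
  have h4 := f5 _ _ hmem
  have h5 : fp (2 * m - 1) ψ (-1 : R) = -1 := by
    unfold fp
    have h6 : sp (-1 : R) = ⊤ := by
      rw [Ideal.span_singleton_eq_top]
      exact isUnit_one.neg
    have h7 : ((-1 : R) : ℂ) = -1 := by push_cast; rfl
    rw [h6, HC.top hψ, h7, Odd.neg_one_pow ⟨m - 1, by omega⟩]
    norm_num
  obtain ⟨g, hg⟩ := c1 β
  have h6 : (l : R) = β * g := by
    apply Subtype.ext
    push_cast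
    rw [hg, Complex.mul_conj, hβ]
    simp
  have h7 : ψ (sp (l : R)) = ((Complex.normSq (ψ (sp β)) : ℝ) : ℂ) := by
    have h8 : sp (l : R) = sp β * bar (sp β) := by
      rw [c6 β g hg, h6]
      exact (Ideal.span_singleton_mul_span_singleton β g).symm
    rw [h8, hψ.mul, hcs, Complex.mul_conj]
  have h8 : fp (2 * m - 1) ψ (l : R) =
      ((Complex.normSq (ψ (sp β)) / (l : ℝ) ^ (2 * m - 1) : ℝ) : ℂ) := by
    unfold fp
    rw [h7]
    push_cast
    rfl
  rw [h8, h5] at h4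
  have h9 : Complex.normSq (ψ (sp β)) / (l : ℝ) ^ (2 * m - 1) = -1 := by exact_mod_cast h4
  have h10 : 0 ≤ Complex.normSq (ψ (sp β)) / (l : ℝ) ^ (2 * m - 1) :=
    div_nonneg (Complex.normSq_nonneg _) (pow_nonneg (Nat.cast_nonneg _) _)
  linarith

end Pool.Agent.TH936.AW
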