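import Pool.Agent.TH936.AC.Wcc
import Pool.Agent.TH936.AW.Stmts

/-!
# Project AW: the explicit root number of `ψ χ` (helper959, after the proofs by helper60 and
helper936 for weight one)
-/

set_option autoImplicit false

open Complex

namespace Pool.Agent.TH936.AW

open Pool.Agent.W192.HK Pool.Agent.TH936.AC
open Pool.Agent.W192.CM (ez nu)
open Pool.Agent.W311.CM (ez_add ez_zero ez_one_iff)
open Pool.Agent.W636.HK (ez_R sum_rp unit_of_cop)

namespace Wc

variable {R : Subring ℂ} {ω : ℂ}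

lemma ne_top {n : ℕ} (hn : Odd n) {f : Ideal R} {ψ : Ideal R → ℂ} (h : HC n f ψ) : f ≠ ⊤ := by
  intro hf
  subst hf
  have h1 := h.princ (-1) (by simp) trivial
  have h2 : sp (-1 : R) = ⊤ := by
    rw [Ideal.span_singleton_eq_top]
    exact isUnit_one.neg
  rw [h2, Wcc.hc_top h] at h1
  push_cast at h1
  rw [hn.neg_one_pow] at h1
  norm_num at h1

/-- the conductor of `ψ` is stable under conjugation -/
lemma bar_eq (hB : A_BAR) (hF : H_FP) (hQ : QP R ω) {n : ℕ} (hn : Odd n) {f : Ideal R}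
    {ψ : Ideal R → ℂ} (h : HC n f ψ) (hc : CS ψ) : bar f = f := by
  obtain ⟨b1, b2, b3, b4, b5, b6, -⟩ := hB R ω hQ
  obtain ⟨-, -, fz, -, fper⟩ := hF R ω hQ.qr n f ψ h (ne_top hn h)
  by_contra hne
  have hlt : f < f ⊔ bar f := by
    refine lt_of_le_of_ne le_sup_left ?_
    intro he
    apply hne
    have h2 : bar f = bar (f ⊔ bar f) := by rw [← he]
    rw [b5, b3, sup_comm, ← he] at h2
    exact h2
  obtain ⟨α, hα0, hα1, hα2, hα3⟩ := h.prim _ hlt
  obtain ⟨u, hu, v, hv, huv⟩ := Submodule.mem_sup.1 hα1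
  set γ : R := α - u with hγ
  have h1 : fp n ψ α = fp n ψ γ := fper _ _ (by rw [hγ]; simpa using hu)
  have h2 : fp n ψ γ ≠ 0 := by
    rw [← h1]
    exact fun h' => (fz α).1 h' hα2
  have hγ0 : γ ≠ 0 := by
    intro h0
    apply h2
    rw [h0]
    unfold fp
    rw [Subring.coe_zero, zero_pow hn.pos.ne', div_zero]
  obtain ⟨w, hw⟩ := b1 γ
  have hγc : (γ : ℂ) ≠ 0 := fun h' => hγ0 (Subtype.ext h')
  have hw0 : w ≠ 0 := by
    intro h0
    rw [h0] at hw
    apply hγc
    simpa using hw.symm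
  have h3 : w - 1 ∈ f := by
    have h4 : γ - 1 ∈ bar f := by
      have : γ - 1 = v := by rw [hγ]; linear_combination -huv
      rw [this]; exact hv
    refine (b2 f (γ - 1) (w - 1) ?_).1 h4
    push_cast
    rw [hw, map_sub, map_one]
  have h5 := h.princ w hw0 h3
  rw [← b6 γ w hw, hc, hw, ← map_pow] at h5
  have h6 : ψ (sp γ) = (γ : ℂ) ^ n := (starRingEnd ℂ).injective h5
  have h7 : fp n ψ γ = 1 := by
    unfold fp
    rw [h6, div_self (pow_ne_zero n hγc)]
  rw [h7] at h1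
  apply hα3
  have hαc : (α : ℂ) ≠ 0 := fun h' => hα0 (Subtype.ext h')
  unfold fp at h1
  rwa [div_eq_one_iff_eq (pow_ne_zero n hαc)] at h1

end Wc

open Wcc in
theorem b_wc (h1 : H_BASIC) (h2 : H_CLS) (h3 : H_FP) (h7 : H_PW) (h8 : A_BAR) : B_WC := by
  classical
  intro R ω hQ m hm f ψ hψ hcs
  obtain ⟨n, hn⟩ : ∃ n : ℕ, n = 2 * m - 1 := ⟨_, rfl⟩
  have hn1 : 2 * m = n + 1 := by omega
  have hodd : Odd n := ⟨m - 1, by omega⟩
  rw [← hn] at hψ
  have : IsDedekindDomain R := hQ.qr.ded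
  have hf0 : f ≠ ⊥ := hψ.ne
  obtain ⟨φ, hφ⟩ : ∃ φ : R, f = sp φ := (hQ.pid.principal f).principal
  obtain ⟨_, -, -, hcls⟩ := h2 R ω hQ.qr
  obtain ⟨_, _, _, T1, -, hS1⟩ := hcls f hf0
  have hT1 := hS1.rp.uni
  have hR0' : (⊤ : Ideal R) ≠ ⊥ := top_ne_bot
  have hsys1 : Sys f {⊤} ⊤ φ T1 := by
    refine ⟨⟨?_, ?_⟩, ?_, ?_, hR0', ?_, ?_, ⟨fun x _ => trivial, hT1⟩⟩
    · intro b hb
      rw [Finset.mem_singleton.1 hb]
      exact hR0'
    · intro I _
      refine ⟨⊤, ⟨Finset.mem_singleton_self _, ?_⟩, fun b hb => Finset.mem_singleton.1 hb.1⟩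
      rw [Ideal.mul_top]
      exact (hQ.pid.principal I).principal
    · intro b hb
      rw [Finset.mem_singleton.1 hb, ← Ideal.one_eq_top]
      exact isCoprime_one_left
    · intro b hb
      rw [Finset.mem_singleton.1 hb]
    · rw [← Ideal.one_eq_top]
      exact isCoprime_one_left
    · rw [Ideal.mul_top, hφ]
  refine ⟨φ, T1, hsys1, ?_⟩
  intro q hq hcop χ hχ hrg d hd
  have : Fact q.Prime := ⟨hq⟩
  have hqt : sp (q : R) ≠ ⊤ := q_ne_top h1 hQ.qr hq
  have hq0 : sp (q : R) ≠ ⊥ := hχ.ne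
  -- coprimality
  have hφf : φ ∈ f := by rw [hφ]; exact Ideal.mem_span_singleton_self φ
  obtain ⟨a0, b0, hab⟩ : ∃ a b : R, a * φ + b * (q : R) = 1 := by
    obtain ⟨i, hi, j, hj, hij⟩ := Ideal.isCoprime_iff_exists.1 hcop
    rw [hφ] at hi
    obtain ⟨s, rfl⟩ := Ideal.mem_span_singleton'.1 hi
    obtain ⟨t, rfl⟩ := Ideal.mem_span_singleton'.1 hj
    exact ⟨s, t, hij⟩
  have hqq : (q : R) ∈ sp (q : R) := Ideal.mem_span_singleton_self _
  have hφ0 : φ ≠ 0 := by
    rintro rfl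
    apply hf0
    rw [hφ]
    simp
  have hφc : (φ : ℂ) ≠ 0 := fun h => hφ0 (Subtype.ext h)
  have hqc : (q : ℂ) ≠ 0 := by exact_mod_cast hq.ne_zero
  have hR0 : (⊤ : Ideal R) ≠ ⊥ := top_ne_bot
  set T : Finset R := (T1 ×ˢ (Finset.univ : Finset (ZMod q × ZMod q))).image (mm hQ.qr φ) with hT
  have hsys : Sys (f * sp (q : R)) {⊤} ⊤ (φ * (q : R)) T := by
    refine ⟨⟨?_, ?_⟩, ?_, ?_, hR0, ?_, ?_, rp_mm hQ.qr hφf hab hT1⟩
    · intro b hb
      rw [Finset.mem_singleton.1 hb]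
      exact hR0
    · intro I _
      refine ⟨⊤, ⟨Finset.mem_singleton_self _, ?_⟩, fun b hb => Finset.mem_singleton.1 hb.1⟩
      rw [Ideal.mul_top]
      exact (hQ.pid.principal I).principal
    · intro b hb
      rw [Finset.mem_singleton.1 hb, ← Ideal.one_eq_top]
      exact isCoprime_one_left
    · intro b hb
      rw [Finset.mem_singleton.1 hb]
    · rw [← Ideal.one_eq_top]
      exact isCoprime_one_left
    · rw [Ideal.mul_top, hφ, Ideal.span_singleton_mul_span_singleton]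
  refine ⟨T, hsys, ?_⟩
  -- the finite parts
  obtain ⟨-, fmul, -, -, fper⟩ := h3 R ω hQ.qr n f ψ hψ (Wc.ne_top hodd hψ)
  -- the sum
  have key : ∀ a : ℕ, Nat.Coprime a d →
      gT ω n (fun I => ψ I * pw χ a I) (φ * (q : R)) T =
        (∑ x ∈ T1, fp n ψ ((q : R) * x) * ez ω ((x : ℂ) / (φ : ℂ))) * pw χ a f * q := by
    intro a ha
    have hPa := h7 R ω hQ.qr (sp (q : R)) χ hχ d hd a ha
    obtain ⟨-, cmul, -, -, cper⟩ := h3 R ω hQ.qr 0 (sp (q : R)) (pw χ a) hPa hqt
    have hC0 : ∀ α : R, fp 0 (pw χ a) α = pw χ a (sp α) := by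
      intro α
      unfold fp
      rw [pow_zero, div_one]
    obtain ⟨α0, -, -, hα2, hα3⟩ := hPa.prim ⊤ (lt_top_iff_ne_top.2 hqt)
    have hG := gauss_q hQ.qr hq (fp 0 (pw χ a)) cmul cper
      (by
        intro m hm
        rw [hC0]
        unfold pw
        rw [hrg.int m hm, if_neg one_ne_zero, one_pow])
      (by
        rw [hC0]
        unfold pw
        rw [if_pos]
        rw [hχ.zero]
        left
        simp)
      α0 (by rw [hC0]; simpa using hα3) hα2
    unfold gT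
    rw [hT, Finset.sum_image]
    · rw [Finset.sum_product]
      have e1 : ∀ x ∈ T1, ∀ p : ZMod q × ZMod q,
          fp n (fun I => ψ I * pw χ a I) (mm hQ.qr φ (x, p)) *
            ez ω ((mm hQ.qr φ (x, p) : ℂ) / ((φ * (q : R) : R) : ℂ)) =
          (fp n ψ ((q : R) * x) * ez ω ((x : ℂ) / (φ : ℂ))) * pw χ a f *
            (fp 0 (pw χ a) (gg hQ.qr p) * ez ω ((gg hQ.qr p : ℂ) / (q : ℂ))) := by
        intro x _ p
        rw [ez_mm hQ.qr hφc]
        have e2 : fp n (fun I => ψ I * pw χ a I) (mm hQ.qr φ (x, p)) =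
            fp n ψ (mm hQ.qr φ (x, p)) * fp 0 (pw χ a) (mm hQ.qr φ (x, p)) := by
          unfold fp
          rw [pow_zero, div_one]
          ring
        have e3 : fp n ψ (mm hQ.qr φ (x, p)) = fp n ψ ((q : R) * x) := by
          apply fper
          have : mm hQ.qr φ (x, p) - (q : R) * x = φ * gg hQ.qr p := by unfold mm; ring
          rw [this]
          exact f.mul_mem_right _ hφf
        have e4 : fp 0 (pw χ a) (mm hQ.qr φ (x, p)) = pw χ a f * fp 0 (pw χ a) (gg hQ.qr p) := by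
          rw [show pw χ a f = fp 0 (pw χ a) φ by rw [hC0, hφ], ← cmul]
          apply cper
          have : mm hQ.qr φ (x, p) - φ * gg hQ.qr p = (q : R) * x := by unfold mm; ring
          rw [this]
          exact (sp (q : R)).mul_mem_right _ hqq
        rw [e2, e3, e4]
        ring
      rw [Finset.sum_congr rfl (fun x hx => Finset.sum_congr rfl (fun p _ => e1 x hx p))]
      simp only [← Finset.mul_sum]
      rw [hG, ← Finset.sum_mul, ← Finset.sum_mul]
    · intro v hv v' hv' he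
      rw [Finset.mem_coe, Finset.mem_product] at hv hv'
      apply mm_inj hQ.qr hφf hab hT1 v v' hv.1 hv'.1
      rw [he, sub_self]
      exact (f * sp (q : R)).zero_mem
  -- the value at `f`
  have hχf : χ f ≠ 0 := by
    intro h
    rcases (hχ.zero f).1 h with h | h
    · exact hf0 h
    · exact h hcop
  have hsq : χ f * χ f = 1 := by
    obtain ⟨-, -, -, -, -, -, -, -, b9, -⟩ := h8 R ω hQ
    have e1 := b9 f hf0
    rw [Wc.bar_eq h8 h3 hQ hodd hψ hcs] at e1
    rw [← hχ.mul, e1]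
    apply hrg.int
    refine nat_cop hq ?_ hqt
    rw [← e1]
    exact hcop.mul_left hcop
  have hpf : ∀ a : ℕ, Nat.Coprime a d → pw χ a f = χ f := by
    intro a ha
    unfold pw
    rw [if_neg hχf]
    have e1 : (χ f - 1) * (χ f + 1) = 0 := by linear_combination hsq
    rcases mul_eq_zero.1 e1 with e2 | e2
    · have e3 : χ f = 1 := by linear_combination e2
      rw [e3, one_pow]
    · have e3 : χ f = -1 := by linear_combination e2
      rw [e3]
      have e4 := hd.pow f hχf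
      rw [e3] at e4
      have e5 : Even d := by
        rcases Nat.even_or_odd d with h | h
        · exact h
        · rw [h.neg_one_pow] at e4
          norm_num at e4
      have e6 : Odd a := by
        rw [← Nat.not_even_iff_odd]
        intro h
        have h2' : (2 : ℕ) ∣ Nat.gcd a d := Nat.dvd_gcd h.two_dvd e5.two_dvd
        rw [ha] at h2'
        norm_num at h2'
      exact e6.neg_one_pow
  have hone : ∀ a : ℕ, pw χ a ⊤ = 1 := by
    intro a
    unfold pw
    rw [hc_top hχ, if_neg one_ne_zero, one_pow]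
  have hval : ∀ a : ℕ, Nat.Coprime a d →
      Wc ω m (f * sp (q : R)) ⊤ (φ * (q : R)) T (fun I => ψ I * pw χ a I) =
      (∑ x ∈ T1, fp n ψ ((q : R) * x) * ez ω ((x : ℂ) / (φ : ℂ))) * χ f * q *
        ((φ * (q : R) : R) : ℂ) ^ n / ((nm (f * sp (q : R)) : ℂ) ^ m * ψ ⊤) := by
    intro a ha
    unfold Wc
    rw [← hn, key a ha, hpf a ha]
    simp only [hone a, mul_one]
  intro a ha
  have hsum : (∑ x ∈ T1, fp n ψ ((q : R) * x) * ez ω ((x : ℂ) / (φ : ℂ))) =
      fp n ψ (q : R) * gT ω n ψ φ T1 := by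
    unfold gT
    rw [Finset.mul_sum]
    refine Finset.sum_congr rfl fun x _ => ?_
    rw [fmul]
    ring
  obtain ⟨-, -, b3, b4, b5, -⟩ := h1 R ω hQ.qr
  have hnq : nm (sp (q : R)) = (q : ℝ) ^ 2 := by
    rw [b5, Subring.coe_natCast, Complex.normSq_natCast]
    ring
  have hnf : (nm f : ℂ) ≠ 0 := by
    have := b3 f hf0
    exact_mod_cast (by linarith : nm f ≠ 0)
  have hψt : ψ ⊤ = 1 := hc_top hψ
  rw [hval a ha, hsum]
  unfold Wc fp
  rw [b4, hnq, hψt, ← hn]
  have hqn : ((q : ℂ) ^ 2) ^ m = (q : ℂ) ^ n * q := by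
    rw [← pow_mul, hn1, pow_succ]
  push_cast
  rw [mul_pow (nm f : ℂ), hqn, mul_pow (φ : ℂ)]
  field_simp

end Pool.Agent.TH936.AW
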